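import Mathlib

/-!
Zero entropy of maps of C*-algebras: definitions used in the statement on linear groups.
-/

namespace Pool.Agent.Helper40.Nil

open Filter

universe u w

/-- the `k × k` matrices, as operators on `ℂ^k` with the operator norm -/
abbrev MkC (k : ℕ) : Type := EuclideanSpace ℂ (Fin k) →L[ℂ] EuclideanSpace ℂ (Fin k)

/-- zero (lower) contractive approximation entropy: for the faithful representation `π` of `A`, all
finite sets `Ω` and all `δ, ε > 0` there are infinitely many `n` such that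
`Ω ∪ α Ω ∪ … ∪ α^(n-1) Ω` is approximated up to `δ` through a matrix algebra of size at most
`exp (ε n)` by contractive linear maps -/
def ZeroEntropy {A : Type u} [CStarAlgebra A] {H : Type w} [NormedAddCommGroup H]
    [InnerProductSpace ℂ H] [CompleteSpace H] (π : A →⋆ₐ[ℂ] (H →L[ℂ] H)) (α : A → A) : Prop :=
  ∀ (Ω : Finset A) (δ ε : ℝ), 0 < δ → 0 < ε → ∃ᶠ n : ℕ in atTop, ∃ k : ℕ,
    (k : ℝ) ≤ Real.exp (ε * n) ∧ ∃ (φ : A →L[ℂ] MkC k) (ψ : MkC k →L[ℂ] (H →L[ℂ] H)),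
      ‖φ‖ ≤ 1 ∧ ‖ψ‖ ≤ 1 ∧ ∀ a ∈ Ω, ∀ j < n, ‖ψ (φ (α^[j] a)) - π (α^[j] a)‖ < δ

end Pool.Agent.Helper40.Nil
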