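import Mathlib
import Pool.Agent.Helper40.MobDefs
import Pool.Agent.Helper40.Nil.EDefs
import Pool.Agent.Helper40.Lin.Defs

/-! Statements of the entropy part of project Nil. -/

namespace Pool.Agent.Helper40.Nil

open Filter Topology
open scoped ComplexConjugate InnerProductSpace ComplexOrder

universe u v w

/-- moments of Rademacher sums of hermitian matrices -/
def ST_NCKM : Prop := ∀ (k m p : ℕ) (X : Fin m → Matrix (Fin k) (Fin k) ℂ),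
  (∀ j, (X j).IsHermitian) → (∀ j, ((1 : Matrix (Fin k) (Fin k) ℂ) - X j * X j).PosSemidef) →
  (∑ e : Fin m → Bool, ((∑ j, (if e j then (1 : ℂ) else -1) • X j) ^ (2 * p)).trace).re ≤
    (2 : ℝ) ^ m * ((2 * p * m : ℕ) : ℝ) ^ p * k

/-- noncommutative Khintchine inequality (existence of signs) -/
def ST_NCK : Prop := ∃ C : ℝ, 0 < C ∧ ∀ (k m : ℕ), 1 ≤ k → ∀ B : Fin m → MkC k, (∀ j, ‖B j‖ ≤ 1) →
  ∃ e : Fin m → ℝ, (∀ j, e j = 1 ∨ e j = -1) ∧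
    ‖∑ j, ((e j : ℝ) : ℂ) • B j‖ ≤ C * Real.sqrt (m * (1 + Real.log k))

/-- an orbit which spans `ℓ¹` prevents zero entropy -/
def ST_ENTLOW : Prop := ∀ (A : Type u) [CStarAlgebra A] (H : Type w) [NormedAddCommGroup H]
  [InnerProductSpace ℂ H] [CompleteSpace H] (π : A →⋆ₐ[ℂ] (H →L[ℂ] H)), Function.Injective π →
  ∀ α : A → A, ZeroEntropy π α → ∀ a : A, (∀ n, ‖α^[n] a‖ ≤ 1) → ∀ M : ℕ, 1 ≤ M → ∀ κ : ℝ, 0 < κ →
  ∃ (n : ℕ) (e : Fin n → ℝ), (∀ j, e j = 1 ∨ e j = -1) ∧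
    ‖∑ j : Fin n, ((e j : ℝ) : ℂ) • α^[(j : ℕ) * M] a‖ < κ * n

/-- Folner sets in nilpotent groups -/
def ST_FOLN : Prop := ∀ (N : Type u) [Group N], Group.IsNilpotent N → ∀ (S : Finset N) (ε : ℝ),
  0 < ε → ∃ K : Finset N, K.Nonempty ∧
    ∀ s ∈ S, (Nat.card {k // k ∈ K ∧ s * k ∉ K} : ℝ) ≤ ε * K.card

/-- dissociate images in a commutative quotient with amenable kernel give `ℓ¹` -/
def ST_L1 : Prop := ∀ (A : Type u) [CStarAlgebra A] (G : Type v) [Group G] (U : G →* unitary A)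
  (τ : A →L[ℂ] ℂ), Mob.IsState τ → (∀ g, g ≠ 1 → τ (U g : A) = 0) →
  ∀ (D : Subgroup G) (E : Type v) [CommGroup E] (f : D →* E),
  (∀ (S : Finset f.ker) (ε : ℝ), 0 < ε → ∃ K : Finset f.ker, K.Nonempty ∧
    ∀ s ∈ S, (Nat.card {k // k ∈ K ∧ s * k ∉ K} : ℝ) ≤ ε * K.card) →
  ∀ (n : ℕ) (x : Fin n → D), (∀ j, f (x j) ≠ 1) →
  (∀ η : Fin n → ℤ, (∀ j, |η j| ≤ 2) → ∏ j, f (x j) ^ η j = 1 → ∀ j, f (x j) ^ η j = 1) →
  ∀ e : Fin n → ℝ, (∀ j, e j = 1 ∨ e j = -1) →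
    (n : ℝ) / 2 ≤ ‖∑ j, ((e j : ℝ) : ℂ) • (U (x j) : A)‖

/-- roots of unity -/
def ST_RU : Prop := ∀ l : ℂ, l ≠ 0 →
  (∀ M : ℕ, 1 ≤ M → ∃ P : Polynomial ℤ, P ≠ 0 ∧ (∀ i, |P.coeff i| ≤ 2) ∧
    Polynomial.aeval (l ^ M) P = 0) → ∃ k : ℕ, 1 ≤ k ∧ l ^ k = 1

/-- the algebraic dichotomy -/
def ST_MODL : Prop := ∀ (M₀ : Type u) [AddCommGroup M₀] (X : M₀ ≃+ M₀),
  (∀ y : M₀, ∀ M : ℕ, 1 ≤ M → y ≠ 0 →
    ∃ (n : ℕ) (η : Fin n → ℤ), (∀ j, |η j| ≤ 2) ∧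
      ∑ j : Fin n, η j • (X^[(j : ℕ) * M] y) = 0 ∧
      ∃ j : Fin n, η j • (X^[(j : ℕ) * M] y) ≠ 0) →
  ∀ v : M₀, ∃ k e : ℕ, 1 ≤ k ∧ (fun y => X^[k] y - y)^[e] v = 0

/-- Hall's nilpotency criterion -/
def ST_HALL : Prop := ∀ (L : Type u) [Group L] (N : Subgroup L) [N.Normal],
  Group.IsNilpotent N → Group.IsNilpotent (L ⧸ ⁅N, N⁆) → Group.IsNilpotent L

/-- powers of two elements with unipotent action on the abelianized commutator subgroup.  The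
condition says that `(a^k - 1)^e` and `(b^k - 1)^e` kill the class of the commutator `c` in the
abelianization of `D = [H, H]`, `H = ⟨a, b⟩`. -/
def ST_NILP : Prop := ∀ (Γ : Type u) [Group Γ] (a b : Γ),
  Group.IsNilpotent ↥(⁅Subgroup.closure {a, b}, Subgroup.closure {a, b}⁆ : Subgroup Γ) →
  (∃ k e : ℕ, 1 ≤ k ∧
    (fun y => a ^ k * y * (a ^ k)⁻¹ * y⁻¹)^[e] (a * b * a⁻¹ * b⁻¹) ∈
      ⁅(⁅Subgroup.closure {a, b}, Subgroup.closure {a, b}⁆ : Subgroup Γ),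
        ⁅Subgroup.closure {a, b}, Subgroup.closure {a, b}⁆⁆) →
  (∃ k e : ℕ, 1 ≤ k ∧
    (fun y => b ^ k * y * (b ^ k)⁻¹ * y⁻¹)^[e] (a * b * a⁻¹ * b⁻¹) ∈
      ⁅(⁅Subgroup.closure {a, b}, Subgroup.closure {a, b}⁆ : Subgroup Γ),
        ⁅Subgroup.closure {a, b}, Subgroup.closure {a, b}⁆⁆) →
  ∃ m : ℕ, 1 ≤ m ∧ Group.IsNilpotent (Subgroup.closure {a ^ m, b ^ m})

/-- zero entropy gives a quasi-unipotent action on abelianizations -/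
def ST_ENTQ : Prop := ∀ (A : Type u) [CStarAlgebra A] (Γ : Type v) [Group Γ] (G : Subgroup Γ) (h : Γ)
  (hG : ∀ g, g ∈ G ↔ h * g * h⁻¹ ∈ G) (U : G →* unitary A) (τ : A →L[ℂ] ℂ), Mob.IsState τ →
  (∀ g, g ≠ 1 → τ (U g : A) = 0) → ∀ (α : A →⋆ₐ[ℂ] A),
  (∀ g : G, α (U g : A) = (U ⟨h * g * h⁻¹, (hG g).1 g.2⟩ : A)) →
  ∀ (H : Type w) [NormedAddCommGroup H] [InnerProductSpace ℂ H] [CompleteSpace H]
    (π : A →⋆ₐ[ℂ] (H →L[ℂ] H)), Function.Injective π → ZeroEntropy π α →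
  ∀ (g : Γ), g ∈ G → ∀ q : ℕ, 1 ≤ q → ∀ D : Subgroup Γ, D ≤ G → Group.IsNilpotent D →
  (∀ y, y ∈ D ↔ (g * h ^ q * g⁻¹) * y * (g * h ^ q * g⁻¹)⁻¹ ∈ D) → ∀ y ∈ D,
  ∃ k e : ℕ, 1 ≤ k ∧ (fun y => (g * h ^ q * g⁻¹) ^ k * y * ((g * h ^ q * g⁻¹) ^ k)⁻¹ * y⁻¹)^[e] y ∈
    (⁅D, D⁆ : Subgroup Γ)

/-- simultaneously triangularizable invertible matrices generate a group with nilpotent commutator
subgroup -/
def ST_TRIN : Prop := ∀ (K : Type u) [Field K] (n : ℕ) (a b : Matrix.GeneralLinearGroup (Fin n) K),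
  Lin.SimTri a.1 b.1 →
  Group.IsNilpotent ↥(⁅Subgroup.closure {a, b}, Subgroup.closure {a, b}⁆ :
    Subgroup (Matrix.GeneralLinearGroup (Fin n) K))

/-- the commutator subgroup is contained in `G` -/
def ST_COMG : Prop := ∀ (Γ : Type u) [Group Γ] (G : Subgroup Γ) (t g : Γ),
  (∀ x, x ∈ G ↔ t * x * t⁻¹ ∈ G) → g ∈ G →
  (⁅Subgroup.closure {t, g * t * g⁻¹}, Subgroup.closure {t, g * t * g⁻¹}⁆ : Subgroup Γ) ≤ G

end Pool.Agent.Helper40.Nil
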