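import Mathlib
import Pool.Agent.Helper40.Wiener7

/-!
Polynomial maps from abelian groups to groups, averages along Folner sequences, positive definite
functions: definitions for project Nil.
-/

namespace Pool.Agent.Helper40.Nil

open Filter Topology
open scoped ComplexConjugate InnerProductSpace

universe u

/-- the derivative of `u` in direction `h` -/
def dd {D : Type} [AddCommGroup D] {V : Type u} [Group V] (h : D) (u : D → V) (x : D) : V :=
  u (x + h) * (u x)⁻¹

/-- a filtration of (a subgroup of) `V` of finite length -/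
structure Filt (V : Type u) [Group V] where
  F : ℕ → Subgroup V
  anti : Antitone F
  comm : ∀ i j : ℕ, ∀ a ∈ F i, ∀ b ∈ F j, a * b * a⁻¹ * b⁻¹ ∈ F (i + j)
  len : ∃ s, F s = ⊥

/-- derivatives of order at most `l` are in the right terms of the shifted filtration -/
def PolyN {D : Type} [AddCommGroup D] {V : Type u} [Group V] (F : ℕ → Subgroup V) :
    ℕ → ℕ → (D → V) → Prop
  | 0, k, u => ∀ x, u x ∈ F k
  | l + 1, k, u => (∀ x, u x ∈ F k) ∧ ∀ h, PolyN F l (k + 1) (dd h u)

/-- `u` is polynomial for the filtration `F k, F (k+1), …` -/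
def Poly {D : Type} [AddCommGroup D] {V : Type u} [Group V] (F : ℕ → Subgroup V) (k : ℕ)
    (u : D → V) : Prop := ∀ l, PolyN F l k u

/-- `u` is a polynomial map -/
def IsPoly {D : Type} [AddCommGroup D] {V : Type u} [Group V] (u : D → V) : Prop :=
  ∃ F : Filt V, Poly F.F 0 u

/-- the subgroup generated by all `e`-th powers -/
def pw (V : Type u) [Group V] (e : ℕ) : Subgroup V := Subgroup.closure (Set.range fun y : V => y ^ e)

/-- Folner sequences of finite sets -/
structure IsFolner {D : Type} [AddCommGroup D] (Φ : ℕ → Finset D) : Prop where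
  nonempty : ∀ N, (Φ N).Nonempty
  inv : ∀ h : D, Tendsto (fun N => (Nat.card {x // x ∈ Φ N ∧ x + h ∉ Φ N} : ℝ) / (Φ N).card)
    atTop (𝓝 0)

/-- the average of `f` over the finite set `S` -/
noncomputable def avg {D : Type} {E : Type u} [AddCommGroup E] [Module ℂ E] (S : Finset D)
    (f : D → E) : E := ((S.card : ℂ)⁻¹) • ∑ x ∈ S, f x

/-- positive definite functions -/
def IsPD {V : Type u} [Group V] (φ : V → ℂ) : Prop :=
  ∀ (s : Finset V) (c : V → ℂ),
    0 ≤ (∑ x ∈ s, ∑ y ∈ s, conj (c x) * c y * φ (x⁻¹ * y)).re ∧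
      (∑ x ∈ s, ∑ y ∈ s, conj (c x) * c y * φ (x⁻¹ * y)).im = 0

/-- normalized positive definite functions -/
def KK (V : Type u) [Group V] : Set (V → ℂ) := {φ | IsPD φ ∧ φ 1 = 1}

/-- a cyclic unitary representation `π` with cyclic vector `ζ` and coefficient `φ` -/
structure IsGNS {V : Type u} [Group V] (φ : V → ℂ) {E : Type u} [NormedAddCommGroup E]
    [InnerProductSpace ℂ E] [CompleteSpace E] (π : V →* (E ≃ₗᵢ[ℂ] E)) (ζ : E) : Prop where
  coef : ∀ x, φ x = ⟪ζ, π x ζ⟫_ℂ
  cyc : ∀ v : E, v ∈ closure ((Submodule.span ℂ (Set.range fun x => π x ζ) : Submodule ℂ E) : Set E)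

end Pool.Agent.Helper40.Nil
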