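import Mathlib
import Pool.Agent.Helper40.Nil.Defs

/-! Statements of the modules of project Nil. -/

namespace Pool.Agent.Helper40.Nil

open Filter Topology Polynomial
open scoped ComplexConjugate InnerProductSpace FourierTransform

universe u v

/-! ### A. Polynomial maps -/

/-- products and inverses of polynomial maps (Leibman) -/
def ST_LEIB : Prop := ∀ (D : Type) [AddCommGroup D] (V : Type u) [Group V] (F : Filt V) (k : ℕ)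
  (u v : D → V), Poly F.F k u → Poly F.F k v →
    Poly F.F k (fun x => u x * v x) ∧ Poly F.F k (fun x => (u x)⁻¹)

/-- elementary operations -/
def ST_POLA : Prop :=
  (∀ (D : Type) [AddCommGroup D] (V : Type u) [Group V] (W : Type v) [Group W] (f : V →* W)
    (u : D → V), IsPoly u → IsPoly (fun x => f (u x))) ∧
  (∀ (D : Type) [AddCommGroup D] (V : Type u) [Group V] (W : Type v) [Group W] (f : W →* V)
    (u : D → W), Function.Injective f → IsPoly (fun x => f (u x)) → IsPoly u) ∧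
  (∀ (D D' : Type) [AddCommGroup D] [AddCommGroup D'] (V : Type u) [Group V] (f : D' →+ D) (c : D)
    (u : D → V), IsPoly u → IsPoly (fun x => u (f x + c)))

/-- operations that need `ST_LEIB` -/
def ST_POLB : Prop := ∀ (D : Type) [AddCommGroup D] (V : Type u) [Group V] (u : D → V), IsPoly u →
  (∀ g : V, (∃ c, u c = g) → IsPoly (fun x => u x * g⁻¹)) ∧
  IsPoly (fun p : D × D => u p.2 * (u p.1)⁻¹) ∧
  (∀ h : D, IsPoly (fun x => u (x + h) * (u x)⁻¹))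

/-- the lower central series filtration: `a ^ n * b ^ (-n)` -/
def ST_LCS : Prop := ∀ (H : Type u) [Group H], Group.IsNilpotent H → ∀ a b : H,
  IsPoly (fun n : ℤ => a ^ n * b ^ (-n))

/-- polynomial maps to groups of finite exponent are periodic -/
def ST_PER : Prop := ∀ (D : Type) [AddCommGroup D] (V : Type u) [Group V] (u : D → V), IsPoly u →
  ∀ e : ℕ, 1 ≤ e → (∀ y : V, y ^ e = 1) → ∃ M : ℕ, 1 ≤ M ∧ ∀ x h : D, u (x + M • h) = u x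

/-- periodic polynomial maps to commutative groups are torsion -/
def ST_PERT : Prop := ∀ (D : Type) [AddCommGroup D] (T : Type u) [CommGroup T] (u : D → T),
  IsPoly u → ∀ M : ℕ, 1 ≤ M → (∀ x h : D, u (x + M • h) = u x) →
  ∃ e : ℕ, 1 ≤ e ∧ ∀ x : D, (u x * (u 0)⁻¹) ^ e = 1

/-- the values of a polynomial sequence generate a finitely generated group -/
def ST_FGZ : Prop := ∀ (V : Type u) [Group V] (u : ℤ → V), IsPoly u →
  (Subgroup.closure (Set.range u)).FG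

/-- in a finitely generated nilpotent group the powers generate a subgroup of finite index -/
def ST_TORF : Prop := ∀ (V : Type u) [Group V], Group.IsNilpotent V → Group.FG V →
  ∀ e : ℕ, 1 ≤ e → (pw V e).FiniteIndex

/-- circle valued polynomial sequences -/
def ST_CIRC : Prop := ∀ u : ℤ → Circle, IsPoly u →
  ∃ Q : ℝ[X], ∀ n : ℤ, ((u n : Circle) : ℂ) = (𝐞 (Q.eval (n : ℝ)) : ℂ)

/-! ### B. Averages -/

/-- basic facts on Folner sequences -/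
def ST_AVG : Prop :=
  (∀ (D : Type) [AddCommGroup D] (Φ : ℕ → Finset D), IsFolner Φ →
    ∀ (E : Type u) [NormedAddCommGroup E] [NormedSpace ℂ E] (f : D → E) (C : ℝ), (∀ x, ‖f x‖ ≤ C) →
      ∀ h : D, Tendsto (fun N => avg (Φ N) (fun x => f (x + h)) - avg (Φ N) f) atTop (𝓝 0)) ∧
  (∀ (D : Type) [AddCommGroup D] (Φ : ℕ → Finset D), IsFolner Φ →
    IsFolner (fun N => Φ N ×ˢ Φ N)) ∧
  IsFolner (fun N : ℕ => Finset.Ico (0 : ℤ) (N + 1))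

/-- van der Corput inequality -/
def ST_VDC : Prop := ∀ (D : Type) [AddCommGroup D] (Φ : ℕ → Finset D), IsFolner Φ →
  ∀ (E : Type u) [NormedAddCommGroup E] [InnerProductSpace ℂ E] (a : D → E), (∀ x, ‖a x‖ ≤ 1) →
  ∀ (k : ℕ), 1 ≤ k → ∀ g : Fin k → D,
  (∀ i j, i ≠ j → Tendsto (fun N => avg (Φ N) (fun x => ⟪a (x + g i), a (x + g j)⟫_ℂ)) atTop (𝓝 0)) →
  ∀ ε : ℝ, 0 < ε → ∀ᶠ N in atTop, ‖avg (Φ N) a‖ ^ 2 ≤ 1 / (k : ℝ) + ε

/-- general Weyl dichotomy -/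
def ST_WG : Prop := ∀ (D : Type) [AddCommGroup D], AddGroup.FG D →
  ∀ (Φ : ℕ → Finset D), IsFolner Φ →
  ∀ (E : Type u) [NormedAddCommGroup E] [InnerProductSpace ℂ E] (a : D → E), (∀ x, ‖a x‖ = 1) →
  ∀ (M : ℕ), 1 ≤ M → ∀ ψ : D → D → Circle,
  (∀ x h, a (x + M • h) = ((ψ h x : Circle) : ℂ) • a x) →
  (∀ h h' x, ψ (h + h') x = ψ h (x + M • h') * ψ h' x) →
  (∀ h, IsPoly (ψ h)) →
  (∀ h, Tendsto (fun N => avg (Φ N) (fun x => ((ψ h x : Circle) : ℂ))) atTop (𝓝 0) ∨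
    ∃ m : ℕ, 1 ≤ m ∧ ∀ x k, ψ h (x + m • k) = ψ h x) →
  Tendsto (fun N => avg (Φ N) a) atTop (𝓝 0) ∨ ∃ m : ℕ, 1 ≤ m ∧ ∀ h x, ψ (m • h) x = 1

/-- Weyl's theorem for circle valued polynomials -/
def ST_WEYL : Prop := ∀ (D : Type) [AddCommGroup D], AddGroup.FG D →
  ∀ (Φ : ℕ → Finset D), IsFolner Φ → ∀ u : D → Circle, IsPoly u →
  Tendsto (fun N => avg (Φ N) (fun x => ((u x : Circle) : ℂ))) atTop (𝓝 0) ∨
    ∃ m : ℕ, 1 ≤ m ∧ ∀ x h, u (x + m • h) = u x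

/-! ### C. Positive definite functions -/

/-- elementary properties and compactness -/
def ST_KC : Prop := ∀ (V : Type u) [Group V],
  IsCompact (KK V) ∧ Convex ℝ (KK V) ∧
  (∀ φ ∈ KK V, ∀ x, ‖φ x‖ ≤ 1 ∧ φ x⁻¹ = conj (φ x)) ∧
  (∀ (E : Type v) [NormedAddCommGroup E] [InnerProductSpace ℂ E] (π : V →* (E ≃ₗᵢ[ℂ] E)) (ζ : E),
    ‖ζ‖ = 1 → (fun x => ⟪ζ, π x ζ⟫_ℂ) ∈ KK V)

/-- the Gelfand-Naimark-Segal construction for groups -/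
def ST_GNS : Prop := ∀ (V : Type u) [Group V], ∀ φ ∈ KK V,
  ∃ (E : Type u) (_ : NormedAddCommGroup E) (_ : InnerProductSpace ℂ E) (_ : CompleteSpace E)
    (π : V →* (E ≃ₗᵢ[ℂ] E)) (ζ : E), IsGNS φ π ζ

/-- extreme points have scalar commutant -/
def ST_EXT : Prop := ∀ (V : Type u) [Group V], ∀ φ ∈ (KK V).extremePoints ℝ,
  ∀ (E : Type u) [NormedAddCommGroup E] [InnerProductSpace ℂ E] [CompleteSpace E]
    (π : V →* (E ≃ₗᵢ[ℂ] E)) (ζ : E), IsGNS φ π ζ →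
  ∀ T : E →L[ℂ] E, (∀ x v, T (π x v) = π x (T v)) → ∃ c : ℂ, ∀ v, T v = c • v

/-- Simons' inequality -/
def ST_SIM : Prop := ∀ (K : Type u) [TopologicalSpace K] [CompactSpace K] (B : Set K)
  (f : ℕ → C(K, ℝ)) (R : ℝ), (∀ n, ‖f n‖ ≤ R) →
  (∀ y ∈ closure (convexHull ℝ (Set.range f)), ∃ b ∈ B, ∀ x, y x ≤ y b) →
  (∀ b ∈ B, ∀ ε : ℝ, 0 < ε → ∀ᶠ n in atTop, f n b ≤ ε) →
  ∀ x : K, ∀ ε : ℝ, 0 < ε → ∃ n, f n x < ε

/-- Rainwater's theorem for positive definite functions -/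
def ST_RAIN : Prop := ∀ (V : Type u) [Group V] (f : ℕ → (V → ℂ) → ℂ) (C : ℝ),
  (∀ n, IsLinearMap ℂ (f n)) → (∀ n, Continuous (f n)) → (∀ n, ∀ φ ∈ KK V, ‖f n φ‖ ≤ C) →
  (∀ φ ∈ (KK V).extremePoints ℝ, Tendsto (fun n => f n φ) atTop (𝓝 0)) →
  ∀ φ ∈ KK V, Tendsto (fun n => f n φ) atTop (𝓝 0)

/-- the square of the modulus is positive definite; functions invariant under a normal subgroup -/
def ST_SCH : Prop := ∀ (V : Type u) [Group V],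
  (∀ φ ∈ KK V, (fun x => ((‖φ x‖ ^ 2 : ℝ) : ℂ)) ∈ KK V) ∧
  (∀ (N : Subgroup V) [N.Normal], ∀ Ψ ∈ KK V, (∀ z ∈ N, ∀ y, Ψ (z * y) = Ψ y) →
    ∃ Ψ' ∈ KK (V ⧸ N), ∀ y : V, Ψ' (y : V ⧸ N) = Ψ y)

/-- in an irreducible representation of dimension `d` of a nilpotent group some power map has
scalar values -/
def ST_G1 : Prop := ∀ (V : Type u) [Group V], Group.IsNilpotent V →
  ∀ (E : Type v) [AddCommGroup E] [Module ℂ E] [FiniteDimensional ℂ E] (π : V →* (E ≃ₗ[ℂ] E)),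
  (∀ T : E →ₗ[ℂ] E, (∀ x v, T (π x v) = π x (T v)) → ∃ c : ℂ, ∀ v, T v = c • v) →
  ∃ e : ℕ, 1 ≤ e ∧ ∀ y : V, ∃ c : ℂ, ∀ v, π (y ^ e) v = c • v

/-- the Hilbert-Schmidt argument for infinite dimensional irreducible representations -/
def ST_HSZ : Prop := ∀ (V : Type u) [Group V], Group.IsNilpotent V → Group.FG V →
  ∀ φ ∈ (KK V).extremePoints ℝ,
  ∀ (E : Type u) [NormedAddCommGroup E] [InnerProductSpace ℂ E] [CompleteSpace E]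
    (π : V →* (E ≃ₗᵢ[ℂ] E)) (ζ : E), IsGNS φ π ζ → ¬ FiniteDimensional ℂ E →
  ∀ e : ℕ, 1 ≤ e → ∀ ε : ℝ, 0 < ε → ∃ (s : Finset V) (c : V → ℝ),
    (∀ x ∈ s, x ∈ pw V e ∧ 0 ≤ c x) ∧ ∑ x ∈ s, c x = 1 ∧
    ∑ x ∈ s, ∑ y ∈ s, c x * c y * ‖φ (x⁻¹ * y)‖ ^ 2 ≤ ε

/-- the finite dimensional dichotomy -/
def ST_FDL : Prop := ∀ (V : Type u) [Group V], Group.IsNilpotent V →
  ∀ φ ∈ (KK V).extremePoints ℝ,
  ∀ (E : Type u) [NormedAddCommGroup E] [InnerProductSpace ℂ E] [CompleteSpace E]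
    (π : V →* (E ≃ₗᵢ[ℂ] E)) (ζ : E), IsGNS φ π ζ → FiniteDimensional ℂ E →
  ∀ (D : Type) [AddCommGroup D], AddGroup.FG D → ∀ (Φ : ℕ → Finset D), IsFolner Φ →
  ∀ u : D → V, IsPoly u → u 0 = 1 → Subgroup.closure (Set.range u) = ⊤ →
  Tendsto (fun N => avg (Φ N) (fun x => φ (u x))) atTop (𝓝 0) ∨
    ∃ e : ℕ, 1 ≤ e ∧ ∀ y ∈ pw V e, φ y = 1

/-- small averages over the groups of powers -/
def ZP {V : Type u} [Group V] (Ψ : V → ℂ) : Prop := ∀ e : ℕ, 1 ≤ e → ∀ ε : ℝ, 0 < ε →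
  ∃ (s : Finset V) (c : V → ℝ), (∀ x ∈ s, x ∈ pw V e ∧ 0 ≤ c x) ∧ ∑ x ∈ s, c x = 1 ∧
    ‖∑ x ∈ s, ∑ y ∈ s, (c x : ℂ) * c y * Ψ (x⁻¹ * y)‖ ≤ ε

/-- the mean ergodic theorem for groups of class at most `c` -/
def EE (c : ℕ) : Prop := ∀ (V : Type u) [Group V] [Group.IsNilpotent V],
  Group.nilpotencyClass V ≤ c → Group.FG V →
  ∀ (D : Type) [AddCommGroup D], AddGroup.FG D → ∀ (Φ : ℕ → Finset D), IsFolner Φ →
  ∀ u : D → V, IsPoly u → u 0 = 1 → Subgroup.closure (Set.range u) = ⊤ →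
  ∀ Ψ ∈ KK V, ZP Ψ → Tendsto (fun N => avg (Φ N) (fun x => Ψ (u x))) atTop (𝓝 0)

/-- the dichotomy for extreme points, class at most `c` -/
def WN (c : ℕ) : Prop := ∀ (V : Type u) [Group V] [Group.IsNilpotent V],
  Group.nilpotencyClass V ≤ c → Group.FG V →
  ∀ (D : Type) [AddCommGroup D], AddGroup.FG D → ∀ (Φ : ℕ → Finset D), IsFolner Φ →
  ∀ u : D → V, IsPoly u → u 0 = 1 → Subgroup.closure (Set.range u) = ⊤ →
  ∀ φ ∈ (KK V).extremePoints ℝ, Tendsto (fun N => avg (Φ N) (fun x => φ (u x))) atTop (𝓝 0) ∨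
    ∃ e : ℕ, 1 ≤ e ∧ ∀ y ∈ pw V e, φ y = 1

/-- decay for extreme points with infinite dimensional representation, from class `c` to `c + 1` -/
def ST_WNI : Prop := ∀ c : ℕ, EE.{u} c → ∀ (V : Type u) [Group V] [Group.IsNilpotent V],
  Group.nilpotencyClass V ≤ c + 1 → Group.FG V →
  ∀ (D : Type) [AddCommGroup D], AddGroup.FG D → ∀ (Φ : ℕ → Finset D), IsFolner Φ →
  ∀ u : D → V, IsPoly u → u 0 = 1 → Subgroup.closure (Set.range u) = ⊤ →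
  ∀ φ ∈ (KK V).extremePoints ℝ,
  ∀ (E : Type u) [NormedAddCommGroup E] [InnerProductSpace ℂ E] [CompleteSpace E]
    (π : V →* (E ≃ₗᵢ[ℂ] E)) (ζ : E), IsGNS φ π ζ → ¬ FiniteDimensional ℂ E →
  Tendsto (fun N => avg (Φ N) (fun x => ((‖φ (u x)‖ ^ 2 : ℝ) : ℂ))) atTop (𝓝 0)

def ST_WN0 : Prop := WN.{u} 0
def ST_WNS : Prop := ∀ c : ℕ, EE.{u} c → WN.{u} (c + 1)
def ST_EEC : Prop := ∀ c : ℕ, WN.{u} c → EE.{u} c

/-- finite dimensional case with weights -/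
def ST_FDQ : Prop := ∀ (V : Type u) [Group V], Group.IsNilpotent V →
  ∀ φ ∈ (KK V).extremePoints ℝ,
  ∀ (E : Type u) [NormedAddCommGroup E] [InnerProductSpace ℂ E] [CompleteSpace E]
    (π : V →* (E ≃ₗᵢ[ℂ] E)) (ζ : E), IsGNS φ π ζ → FiniteDimensional ℂ E →
  ∀ u : ℤ → V, IsPoly u → ∀ ν : ℕ → ℂ, (∀ n, ‖ν n‖ ≤ 1) → Wiener.OrthPoly ν →
  Tendsto (fun N : ℕ => (∑ n ∈ Finset.range N, ν n * φ (u n)) / (N : ℂ)) atTop (𝓝 0)

/-- Wiener-Wintner type theorem for polynomial sequences in nilpotent groups -/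
def ST_WFIN : Prop := ∀ (V : Type u) [Group V], Group.IsNilpotent V →
  ∀ φ ∈ KK V, ∀ u : ℤ → V, IsPoly u → ∀ ν : ℕ → ℂ, (∀ n, ‖ν n‖ ≤ 1) → Wiener.OrthPoly ν →
  Tendsto (fun N : ℕ => (∑ n ∈ Finset.range N, ν n * φ (u n)) / (N : ℂ)) atTop (𝓝 0)

/-- application to conjugation automorphisms -/
def ST_APP : Prop := ∀ (A : Type u) [CStarAlgebra A] (𝒢 : Type v) [Group 𝒢] (G : Subgroup 𝒢) (h : 𝒢)
  (hG : ∀ g, g ∈ G ↔ h * g * h⁻¹ ∈ G) (U : G →* unitary A) (α : A →⋆ₐ[ℂ] A),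
  (∀ g : G, α (U g : A) = (U ⟨h * g * h⁻¹, (hG g).1 g.2⟩ : A)) →
  ∀ g : G, ∀ m : ℕ, 1 ≤ m →
  Group.IsNilpotent (Subgroup.closure {h ^ m, (g : 𝒢) * h ^ m * (g : 𝒢)⁻¹}) →
  ∀ z : ℂ, ‖z‖ = 1 → ∀ ρ : A →L[ℂ] ℂ, Mob.IsState ρ →
  Tendsto (fun N : ℕ => (∑ n ∈ Finset.range N, ((ArithmeticFunction.moebius n : ℤ) : ℂ) * z ^ n *
    ρ (α^[n] (U g : A))) / (N : ℂ)) atTop (𝓝 0)

end Pool.Agent.Helper40.Nil
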