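import Mathlib
import Pool.Agent.Helper40.Lin.Defs

/-! Statements of the positive characteristic part of project Nil. -/

namespace Pool.Agent.Helper40.Nil

open Pool.Agent.Helper40.Lin

universe u v

/-- the field of Laurent series over the prime field is a local field -/
def ST_LSER : Prop := ∀ (p : ℕ) [Fact p.Prime],
  ∃ (L : Type) (_ : NontriviallyNormedField L) (_ : ProperSpace L) (_ : IsUltrametricDist L),
    CharP L p ∧ Uncountable L

/-- extension of embeddings of countable fields of characteristic `p` -/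
def ST_EXTP : Prop := ∀ (p : ℕ) [Fact p.Prime] (F : Type u) [Field F] [CharP F p] [Countable F]
  (ρ : F) (Ω : Type v) [Field Ω] [CharP Ω p] [IsAlgClosed Ω] [Uncountable Ω] (β : Ω),
  ρ ≠ 0 → (∀ n : ℕ, 1 ≤ n → ρ ^ n ≠ 1) → β ≠ 0 → (∀ n : ℕ, 1 ≤ n → β ^ n ≠ 1) →
  ∃ σ : F →+* Ω, σ ρ = β

/-- a finitely generated subfield of the algebraic closure of a local field -/
def ST_FINL : Prop := ∀ (L : Type) [NontriviallyNormedField L] [ProperSpace L] [IsUltrametricDist L]
  (F : Type u) [Field F] (S : Finset F), Subfield.closure (S : Set F) = ⊤ →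
  ∀ σ : F →+* AlgebraicClosure L,
  ∃ (k : Type) (_ : NontriviallyNormedField k) (_ : ProperSpace k) (σ' : F →+* k),
    ∀ x, ‖σ' x‖ = spectralNorm L (AlgebraicClosure L) (σ x)

/-- Tits's lemma in characteristic `p` -/
def ST_TITSP : Prop := ∀ (p : ℕ) [Fact p.Prime] (F : Type u) [Field F] [CharP F p] (S : Finset F),
  Subfield.closure (S : Set F) = ⊤ → ∀ ρ : F, ρ ≠ 0 → (∀ n : ℕ, 1 ≤ n → ρ ^ n ≠ 1) →
  ∃ (k : Type) (_ : NontriviallyNormedField k) (_ : ProperSpace k) (σ : F →+* k), ‖σ ρ‖ ≠ 1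

/-- a local field and a representation over it, characteristic `p` -/
def ST_ALG2P : Prop := ∀ (p : ℕ) [Fact p.Prime] (E : Type u) [Field E] [CharP E p] [IsAlgClosed E]
    (m : ℕ), 2 ≤ m → ∀ (t s : GL (Fin m) E),
    (∀ q : ℕ, 1 ≤ q → Algebra.adjoin E {(t ^ q).1, (s ^ q).1} = ⊤) →
    ∃ (k : Type) (_ : NontriviallyNormedField k) (_ : ProperSpace k)
      (ψ : Subgroup.closure ({t, s} : Set (GL (Fin m) E)) →* GL (Fin m) k),
      (∀ q : ℕ, 1 ≤ q → Irr ((ψ ⟨t, Subgroup.subset_closure (by simp)⟩) ^ q)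
        ((ψ ⟨s, Subgroup.subset_closure (by simp)⟩) ^ q)) ∧
      Unb (ψ ⟨t, Subgroup.subset_closure (by simp)⟩)

end Pool.Agent.Helper40.Nil
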