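import Mathlib
import Pool.Agent.Helper40.Lin.SPACE
import Pool.Agent.Helper94.Nil.ALG2P
import Pool.Agent.Helper81.Nil.TITSP
import Pool.Agent.Helper41.Nil.LSER
import Pool.Agent.Helper68.Nil.EXTP
import Pool.Agent.Helper81.Nil.FINL

open MeasureTheory Filter Topology
open scoped LinearAlgebra.Projectivization Matrix

namespace Pool.Agent.Helper40.Nil

open Pool.Agent.Helper26.Lin Pool.Agent.Helper44.Lin Pool.Agent.Helper40.Lin

universe u

theorem alg2_any (E : Type u) [Field E] [IsAlgClosed E] (m : ℕ) (hm : 2 ≤ m) (t s : GL (Fin m) E)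
    (h : ∀ q : ℕ, 1 ≤ q → Algebra.adjoin E {(t ^ q).1, (s ^ q).1} = ⊤) :
    ∃ (k : Type) (_ : NontriviallyNormedField k) (_ : ProperSpace k)
      (ψ : Subgroup.closure ({t, s} : Set (GL (Fin m) E)) →* GL (Fin m) k),
      (∀ q : ℕ, 1 ≤ q → Irr ((ψ ⟨t, Subgroup.subset_closure (by simp)⟩) ^ q)
        ((ψ ⟨s, Subgroup.subset_closure (by simp)⟩) ^ q)) ∧
      Unb (ψ ⟨t, Subgroup.subset_closure (by simp)⟩) := by
  obtain ⟨p, hp⟩ := CharP.exists E
  rcases CharP.char_is_prime_or_zero E p with h0 | h0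
  · haveI : Fact p.Prime := ⟨h0⟩
    exact st_ALG2P (st_TITSP st_LSER st_EXTP st_FINL) p E m hm t s h
  · subst h0
    haveI : CharZero E := CharP.charP_to_charZero E
    exact Pool.Agent.Helper24.Lin.ALG2 m hm t s h

theorem SPACE2 {K : Type u} [Field K] (n : ℕ) (h g : GL (Fin n) K)
    (hns : ∀ q : ℕ, 1 ≤ q → ¬ SimTri (h ^ q).1 ((g * h * g⁻¹) ^ q).1) :
    ∃ q : ℕ, 1 ≤ q ∧ ∃ (X : Type) (_ : TopologicalSpace X) (_ : CompactSpace X) (_ : T2Space X)
      (_ : MeasurableSpace X) (_ : BorelSpace X) (t s : X ≃ₜ X),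
      (∀ ν ρ : Measure X, IsFiniteMeasure ν → IsFiniteMeasure ρ → Measure.map t ν = ν →
        Measure.map s ρ = ρ → ν ⟂ₘ ρ) ∧
      ∀ r : ℕ, ∃ κin κout : GL (Fin n) K → X, ∀ (j : ℕ) (γ : GL (Fin n) K),
        κout (h ^ (q * j + r) * g * (h ^ (q * j + r))⁻¹ * γ) = t^[j] (s^[j] (κin γ)) := by
  classical
  obtain ⟨q, hq, m, hm, k, i1, i2, ψ, hirr, hunb⟩ := Pool.Agent.Helper94.Lin.ALG3_of
    (fun n t s h => Pool.Agent.Helper37.Lin.ALG1 n t s h)
    (alg2_any (AlgebraicClosure K)) n h (g * h⁻¹ * g⁻¹) (fun q hq hs => by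
    apply hns q hq
    have h1 := SimTri.inv_right hs
    have h2 : ((g * h⁻¹ * g⁻¹) ^ q)⁻¹ = (g * h * g⁻¹) ^ q := by
      rw [← inv_pow]
      congr 1
      group
    rwa [h2] at h1)
  set t₀ : Subgroup.closure ({h ^ q, (g * h⁻¹ * g⁻¹) ^ q} : Set (GL (Fin n) K)) :=
    ⟨h ^ q, Subgroup.subset_closure (by simp)⟩ with ht₀
  set s₀ : Subgroup.closure ({h ^ q, (g * h⁻¹ * g⁻¹) ^ q} : Set (GL (Fin n) K)) :=
    ⟨(g * h⁻¹ * g⁻¹) ^ q, Subgroup.subset_closure (by simp)⟩ with hs₀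
  have hcomp : CompactSpace (PS k m) := PT1 m
  have ht2 : T2Space (PS k m) := PT2 m
  let homeo : GL (Fin m) k → (PS k m ≃ₜ PS k m) := fun a =>
    { toFun := act a
      invFun := act a⁻¹
      left_inv := fun x => by rw [← (PT4 m a⁻¹ a x).1, inv_mul_cancel, (PT4 m a⁻¹ a x).2]
      right_inv := fun x => by rw [← (PT4 m a a⁻¹ x).1, mul_inv_cancel, (PT4 m a a⁻¹ x).2]
      continuous_toFun := PT3 m a
      continuous_invFun := PT3 m a⁻¹ }
  have hiter : ∀ (a : GL (Fin m) k) (j : ℕ) (x : PS k m), (homeo a)^[j] x = act (a ^ j) x := by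
    intro a j
    induction j with
    | zero => intro x; simpa using (PT4 m a a x).2.symm
    | succ j ih =>
      intro x
      rw [Function.iterate_succ, Function.comp_apply, ih, pow_succ, (PT4 m (a ^ j) a x).1]
      rfl
  refine ⟨q, hq, PS k m, inferInstance, hcomp, ht2, inferInstance, inferInstance,
    homeo (ψ t₀), homeo (ψ s₀), ?_, ?_⟩
  · intro ν ρ hν1 hρ1 hν hρ
    exact SING m (ψ t₀) (ψ s₀) hirr hunb ν ρ hν hρ
  · intro r
    -- base point
    have : NeZero m := ⟨by omega⟩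
    let o : PS k m := (Projectivization.mk k (fun _ => (1 : k)) (by
      intro h0
      have := congrFun h0 (0 : Fin m)
      simp at this) : ℙ k (Fin m → k))
    obtain ⟨R, hR⟩ := exists_section (Subgroup.closure ({h ^ q, (g * h⁻¹ * g⁻¹) ^ q} :
      Set (GL (Fin n) K)))
    refine ⟨fun γ => act (ψ (R (g * (h ^ r)⁻¹ * γ))) o, fun γ => act (ψ (R ((h ^ r)⁻¹ * γ))) o,
      fun j γ => ?_⟩
    rw [hiter, hiter]
    dsimp only
    rw [← (PT4 m _ _ _).1, ← (PT4 m _ _ _).1, ← map_pow, ← map_pow, ← map_mul, ← map_mul]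
    congr 2
    rw [mul_assoc (t₀ ^ j) (s₀ ^ j), ← hR, ← hR]
    congr 1
    have e1 : ((t₀ ^ j : Subgroup.closure ({h ^ q, (g * h⁻¹ * g⁻¹) ^ q} :
        Set (GL (Fin n) K))) : GL (Fin n) K) = h ^ (q * j) := by
      rw [Subgroup.coe_pow, pow_mul]
    have e2 : ((s₀ ^ j : Subgroup.closure ({h ^ q, (g * h⁻¹ * g⁻¹) ^ q} :
        Set (GL (Fin n) K))) : GL (Fin n) K) = g * (h ^ (q * j))⁻¹ * g⁻¹ := by
      rw [Subgroup.coe_pow]
      change ((g * h⁻¹ * g⁻¹) ^ q) ^ j = _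
      rw [← pow_mul, conj_pow, inv_pow]
    rw [e1, e2]
    have e3 : h ^ (q * j + r) = h ^ r * h ^ (q * j) := by rw [← pow_add, add_comm]
    rw [e3]
    group

end Pool.Agent.Helper40.Nil
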