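import Mathlib
import Pool.Agent.Helper40.Nil.Stmts
import Pool.Agent.Helper40.Nil.Stmts2
import Pool.Agent.Helper40.Nil.SPACE2
import Pool.Agent.Helper40.Free.FDefs
import Pool.Agent.Helper77.Lin.MAINC
import Pool.Agent.Helper79.Lin.GENC

/-! # Final assembly: linear groups, zero entropy -/

open MeasureTheory Filter Topology
open scoped InnerProductSpace ComplexConjugate ArithmeticFunction.Moebius commutatorElement

namespace Pool.Agent.Helper40.Nil

open Pool.Agent.Helper40.Lin Pool.Agent.Helper40.Mob Pool.Agent.Helper40.Wiener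
open Pool.Agent.Helper40.QFree Pool.Agent.Helper40.Conv
open Pool.Agent.Helper77.Lin Pool.Agent.Helper79.Lin

universe u v w

/-- twisted disjointness from a set with dense span -/
theorem td_of_gen {A : Type u} [CStarAlgebra A] {ι : Type v} (W : ι → A)
    (hspan : ∀ a : A, a ∈ closure ((Submodule.span ℂ (Set.range W) : Submodule ℂ A) : Set A))
    (α : A →⋆ₐ[ℂ] A)
    (hW : ∀ i, ∀ ρ : A →L[ℂ] ℂ, IsState ρ → ∀ z : ℂ, ‖z‖ = 1 →
      Tendsto (fun N : ℕ => (∑ n ∈ Finset.range N, ((ArithmeticFunction.moebius n : ℤ) : ℂ) * z ^ n *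
        ρ (α^[n] (W i))) / (N : ℂ)) atTop (𝓝 0)) (a : A) :
    TwistedDisjoint α a := by
  intro ρ hρ z₀ hz₀
  have hρb : ∀ x, ‖ρ x‖ ≤ ‖x‖ := fun x => by
    have := ρ.le_opNorm x
    rwa [hρ.2, one_mul] at this
  let T : ℕ → A →ₗ[ℂ] ℂ := fun n => (ρ : A →ₗ[ℂ] ℂ) ∘ₗ iterL α n
  have hT : ∀ n x, ‖T n x‖ ≤ ‖x‖ := fun n x => (hρb _).trans (iterate_norm_le α n x)
  let w : ℕ → ℂ := fun n => (μ n : ℂ) * z₀ ^ n
  have hw : ∀ n, ‖w n‖ ≤ 1 := fun n => by
    simp only [w]
    rw [norm_mul, norm_pow, hz₀, one_pow, mul_one]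
    exact norm_moebius n
  have hcl := goodL_closed T w hw hT
  have hle : (Submodule.span ℂ (Set.range W) : Submodule ℂ A) ≤ goodL T w := by
    rw [Submodule.span_le]
    rintro _ ⟨g, rfl⟩
    change Tendsto _ _ _
    have h3 := (hW g ρ hρ z₀ hz₀).norm
    rw [norm_zero] at h3
    refine h3.congr fun N => ?_
    rw [norm_div, Complex.norm_natCast]
    rfl
  have hu' : Tendsto (fun N : ℕ => ‖∑ n ∈ Finset.range N, w n • T n a‖ / (N : ℝ))
    atTop (𝓝 0) := closure_minimal hle hcl (hspan a)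
  apply Icc_of_range _ ‖a‖
  · intro n
    rw [norm_mul]
    calc _ ≤ 1 * ‖a‖ := by
          gcongr
          · exact hw n
          · exact hT n a
      _ = _ := one_mul _
  · rw [tendsto_zero_iff_norm_tendsto_zero]
    refine hu'.congr fun N => ?_
    rw [norm_div, Complex.norm_natCast]
    rfl

theorem ASM (hAPP : ST_APP.{u, v}) (hENTQ : ST_ENTQ.{u, v, w}) (hNILP : ST_NILP.{v})
    (hTRIN : ST_TRIN.{v}) (hCOMG : ST_COMG.{v})
    {K : Type v} [Field K] (n : ℕ) (G : Subgroup (GL (Fin n) K))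
    (h : GL (Fin n) K) (hG : ∀ g, g ∈ G ↔ h * g * h⁻¹ ∈ G)
    {A : Type u} [CStarAlgebra A] (U : G →* unitary A)
    (hspan : ∀ a : A, a ∈ closure ((Submodule.span ℂ (Set.range fun g => (U g : A)) :
      Submodule ℂ A) : Set A))
    (τ : A →L[ℂ] ℂ) (hτ : IsState τ) (hτU : ∀ g, g ≠ 1 → τ (U g : A) = 0)
    (hfaith : ∀ a, (∀ x y, τ (x * a * y) = 0) → a = 0)
    (α : A →⋆ₐ[ℂ] A)
    (hα : ∀ g : G, α (U g : A) = (U ⟨h * g * h⁻¹, (hG g).1 g.2⟩ : A))
    {H : Type w} [NormedAddCommGroup H] [InnerProductSpace ℂ H] [CompleteSpace H]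
    (π : A →⋆ₐ[ℂ] (H →L[ℂ] H)) (hπ : Function.Injective π) (hent : ZeroEntropy π α) (a : A) :
    TwistedDisjoint α a := by
  classical
  apply td_of_gen (fun g : G => (U g : A)) hspan α
  intro g ρ hρ z hz
  let θ : G → G := fun g => ⟨h * g * h⁻¹, (hG g).1 g.2⟩
  have hθ : ∀ (j : ℕ) (g : G), ((θ^[j] g : G) : GL (Fin n) K) = h ^ j * g * (h ^ j)⁻¹ := by
    intro j
    induction j with
    | zero => intro g; simp
    | succ j ih =>
      intro g
      rw [Function.iterate_succ', Function.comp_apply]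
      change h * ((θ^[j] g : G) : GL (Fin n) K) * h⁻¹ = _
      rw [ih, pow_succ']
      group
  by_cases hs : ∀ q : ℕ, 1 ≤ q → ¬ SimTri (h ^ q).1 (((g : GL (Fin n) K) * h *
      (g : GL (Fin n) K)⁻¹) ^ q).1
  · obtain ⟨q, hq, X, i1, i2, i3, i4, i5, t, s, hsing, hκ⟩ := SPACE2 n h (g : GL (Fin n) K) hs
    have hU : ∀ g h, ∃ c : ℂ, (U g : A) * (U h : A) = c • (U (g * h) : A) := fun g h =>
      ⟨1, by rw [one_smul, map_mul]; rfl⟩
    have key := GENC (fun g => U g) hU τ hτ hτU hfaith hspan θ α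
      (fun g => ⟨1, by rw [one_smul]; exact hα g⟩) g q hq t s hsing (fun r _ => by
        obtain ⟨κin, κout, hκ⟩ := hκ r
        refine ⟨fun γ => κin γ, fun γ => κout γ, fun j γ => ?_⟩
        rw [← hκ]
        change κout _ = _
        congr 1
        rw [Subgroup.coe_mul, hθ]) ρ hρ
    rw [tendsto_zero_iff_norm_tendsto_zero]
    refine squeeze_zero (fun N => norm_nonneg _) (fun N => ?_) key
    rw [norm_div, Complex.norm_natCast]
    gcongr
    refine (norm_sum_le _ _).trans (Finset.sum_le_sum fun n _ => ?_)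
    rw [norm_mul, norm_mul, norm_pow, hz, one_pow, mul_one]
    calc _ ≤ 1 * ‖ρ (α^[n] (U g : A))‖ := by
          gcongr
          exact norm_moebius n
      _ = _ := one_mul _
  · push Not at hs
    obtain ⟨q, hq, hs⟩ := hs
    set g' : GL (Fin n) K := (g : GL (Fin n) K) with hg'
    have hb : (g' * h * g'⁻¹) ^ q = g' * h ^ q * g'⁻¹ := conj_pow
    rw [hb] at hs
    set a₀ := h ^ q with ha0
    set b₀ := g' * h ^ q * g'⁻¹ with hb0
    have hGq : ∀ j : ℕ, ∀ x, x ∈ G ↔ h ^ j * x * (h ^ j)⁻¹ ∈ G := by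
      intro j
      induction j with
      | zero => intro x; simp
      | succ j ih =>
        intro x
        rw [ih, hG]
        have : h * (h ^ j * x * (h ^ j)⁻¹) * h⁻¹ = h ^ (j + 1) * x * (h ^ (j + 1))⁻¹ := by
          rw [pow_succ']; group
        rw [this]
    have hD := hTRIN K n a₀ b₀ hs
    have hDG := hCOMG (GL (Fin n) K) G a₀ g' (hGq q) g.2
    rw [← hb0] at hDG
    set D : Subgroup (GL (Fin n) K) := ⁅Subgroup.closure {a₀, b₀}, Subgroup.closure {a₀, b₀}⁆ with hDdef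
    have hnorm : ∀ t ∈ Subgroup.closure {a₀, b₀}, ∀ y, y ∈ D → t * y * t⁻¹ ∈ D := by
      intro t ht y hy
      have h1 : ⁅t, y⁆ ∈ D := by
        have hyH : y ∈ Subgroup.closure {a₀, b₀} := Subgroup.commutator_le_self _ hy
        exact Subgroup.commutator_mem_commutator ht hyH
      have h2 : t * y * t⁻¹ = ⁅t, y⁆ * y := by
        rw [commutatorElement_def]; group
      rw [h2]
      exact mul_mem h1 hy
    have hiff : ∀ t ∈ Subgroup.closure {a₀, b₀}, ∀ y, y ∈ D ↔ t * y * t⁻¹ ∈ D := by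
      intro t ht y
      refine ⟨hnorm t ht y, fun hy => ?_⟩
      have := hnorm t⁻¹ (inv_mem ht) _ hy
      have e : t⁻¹ * (t * y * t⁻¹) * t⁻¹⁻¹ = y := by group
      rwa [e] at this
    have haH : a₀ ∈ Subgroup.closure {a₀, b₀} := Subgroup.subset_closure (by simp)
    have hbH : b₀ ∈ Subgroup.closure {a₀, b₀} := Subgroup.subset_closure (by simp)
    have hcD : a₀ * b₀ * a₀⁻¹ * b₀⁻¹ ∈ D := Subgroup.commutator_mem_commutator haH hbH
    have hA := hENTQ A (GL (Fin n) K) G h hG U τ hτ hτU α hα H π hπ hent 1 (one_mem _) q hq D hDG hD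
      (by simpa using hiff a₀ haH) _ hcD
    have hB := hENTQ A (GL (Fin n) K) G h hG U τ hτ hτU α hα H π hπ hent g' g.2 q hq D hDG hD
      (hiff b₀ hbH) _ hcD
    obtain ⟨m, hm, hnil⟩ := hNILP (GL (Fin n) K) a₀ b₀ hD (by simpa using hA) hB
    have e1 : a₀ ^ m = h ^ (q * m) := by rw [ha0, pow_mul]
    have e2 : b₀ ^ m = g' * h ^ (q * m) * g'⁻¹ := by rw [hb0, conj_pow, pow_mul]
    rw [e1, e2] at hnil
    exact hAPP A (GL (Fin n) K) G h hG U α hα g (q * m) (Nat.mul_pos hq hm) hnil z hz ρ hρ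

end Pool.Agent.Helper40.Nil
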