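import Mathlib
import Pool.Agent.Helper40.Nil.Stmts2

open scoped commutatorElement

namespace Pool.Agent.Helper40.Nil

universe u

theorem st_COMG : ST_COMG.{u} := by
  intro Γ _ G t g hG hg
  have hz : ∀ (i : ℤ) (x : Γ), x ∈ G → t ^ i * x * (t ^ i)⁻¹ ∈ G := by
    intro i
    induction i using Int.induction_on with
    | zero => intro x hx; simpa using hx
    | succ i ih =>
      intro x hx
      have h1 := (hG _).1 (ih x hx)
      have e : t * (t ^ (i : ℤ) * x * (t ^ (i : ℤ))⁻¹) * t⁻¹ =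
          t ^ ((i : ℤ) + 1) * x * (t ^ ((i : ℤ) + 1))⁻¹ := by
        rw [add_comm, zpow_add, zpow_one]; group
      rwa [e] at h1
    | pred i ih =>
      intro x hx
      have h1 := ih x hx
      rw [hG]
      have e : t * (t ^ (-(i : ℤ) - 1) * x * (t ^ (-(i : ℤ) - 1))⁻¹) * t⁻¹ =
          t ^ (-(i : ℤ)) * x * (t ^ (-(i : ℤ)))⁻¹ := by
        have : t ^ (-(i : ℤ)) = t * t ^ (-(i : ℤ) - 1) := by
          rw [← zpow_one_add]; congr 1; ring
        rw [this]; group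
      rwa [e]
  have key : ∀ x ∈ Subgroup.closure {t, g * t * g⁻¹}, ∃ i : ℤ, ∃ y ∈ G, x = t ^ i * y := by
    intro x hx
    induction hx using Subgroup.closure_induction with
    | mem x hx =>
      rcases hx with rfl | hx
      · exact ⟨1, 1, one_mem _, by simp⟩
      · rw [Set.mem_singleton_iff] at hx
        subst hx
        refine ⟨1, t⁻¹ * g * t * g⁻¹, ?_, by group⟩
        have h1 := hz (-1) g hg
        have e : t ^ (-1 : ℤ) * g * (t ^ (-1 : ℤ))⁻¹ = t⁻¹ * g * t := by group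
        rw [e] at h1
        exact mul_mem h1 (inv_mem hg)
    | one => exact ⟨0, 1, one_mem _, by simp⟩
    | mul x y _ _ hx hy =>
      obtain ⟨i, u, hu, rfl⟩ := hx
      obtain ⟨j, v, hv, rfl⟩ := hy
      refine ⟨i + j, t ^ (-j) * u * (t ^ (-j))⁻¹ * v, mul_mem (hz (-j) u hu) hv, ?_⟩
      rw [zpow_add, zpow_neg]; group
    | inv x _ hx =>
      obtain ⟨i, u, hu, rfl⟩ := hx
      refine ⟨-i, t ^ i * u⁻¹ * (t ^ i)⁻¹, hz i _ (inv_mem hu), ?_⟩
      rw [zpow_neg]; group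
  rw [Subgroup.commutator_le]
  intro x hx y hy
  obtain ⟨i, u, hu, rfl⟩ := key x hx
  obtain ⟨j, v, hv, rfl⟩ := key y hy
  have e : ⁅t ^ i * u, t ^ j * v⁆ = (t ^ i * u * (t ^ i)⁻¹) *
      (t ^ (i + j) * (v * u⁻¹) * (t ^ (i + j))⁻¹) * (t ^ j * v⁻¹ * (t ^ j)⁻¹) := by
    rw [commutatorElement_def, zpow_add]; group
  rw [e]
  exact mul_mem (mul_mem (hz i u hu) (hz _ _ (mul_mem hv (inv_mem hu)))) (hz j _ (inv_mem hv))

end Pool.Agent.Helper40.Nil
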