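import Mathlib
import Pool.Agent.Helper40.Nil.Asm
import Pool.Agent.Helper32.Nil.APP
import Pool.Agent.Helper67.Nil.AVG
import Pool.Agent.Helper2.Nil.CIRC
import Pool.Agent.Helper40.Nil.COMG
import Pool.Agent.Helper92.Nil.EEC
import Pool.Agent.Helper77.Nil.ENTLOW
import Pool.Agent.Helper11.Nil.ENTQ
import Pool.Agent.Helper26.Nil.EXT
import Pool.Agent.Helper53.Nil.FDL
import Pool.Agent.Helper67.Nil.FDQ
import Pool.Agent.Helper7.Nil.FGZ
import Pool.Agent.Helper61.Nil.FOLN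
import Pool.Agent.Helper77.Nil.G1
import Pool.Agent.Helper44.Nil.GNS
import Pool.Agent.Helper13.Nil.HALL
import Pool.Agent.Helper83.Nil.HSZ
import Pool.Agent.Helper5.Nil.KC
import Pool.Agent.Helper92.Nil.L1
import Pool.Agent.Helper2.Nil.LCS
import Pool.Agent.Helper27.Nil.LEIB
import Pool.Agent.Helper94.Nil.MODL
import Pool.Agent.Helper33.Nil.NCK
import Pool.Agent.Helper41.Nil.NCKM
import Pool.Agent.Helper5.Nil.NILP
import Pool.Agent.Helper27.Nil.PER
import Pool.Agent.Helper27.Nil.PERT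
import Pool.Agent.Helper44.Nil.POLA
import Pool.Agent.Helper25.Nil.POLB
import Pool.Agent.Helper67.Nil.RAIN
import Pool.Agent.Helper3.Nil.RU
import Pool.Agent.Helper79.Nil.SCH
import Pool.Agent.Helper79.Nil.SIM
import Pool.Agent.Helper25.Nil.TORF
import Pool.Agent.Helper38.Nil.TRIN
import Pool.Agent.Helper67.Nil.VDC
import Pool.Agent.Helper53.Nil.WEYL
import Pool.Agent.Helper77.Nil.WFIN
import Pool.Agent.Helper58.Nil.WG
import Pool.Agent.Helper44.Nil.WN0
import Pool.Agent.Helper67.Nil.WNI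
import Pool.Agent.Helper7.Nil.WNS

/-! # All modules together -/

open MeasureTheory Filter Topology

namespace Pool.Agent.Helper40.Nil

open Pool.Agent.Helper40.Lin Pool.Agent.Helper40.Mob

universe u v w

theorem all_POLB : ST_POLB.{u} := Pool.Agent.Helper25.Nil.POLB.st_POLB st_LEIB

theorem all_WG : ST_WG.{u} := st_WG st_AVG st_AVG (st_VDC st_AVG) st_PERT

theorem all_WEYL : ST_WEYL := st_WEYL all_WG

theorem all_RAIN : ST_RAIN.{u} := st_RAIN st_SIM Pool.Agent.Helper5.Nil.st_KC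

theorem all_FDL : ST_FDL.{u} :=
  st_FDL st_EXT st_G1 st_PER st_PERT st_POLA st_POLA all_POLB all_WEYL all_WG

theorem all_WNI : ST_WNI.{u} := st_WNI (st_HSZ st_EXT Pool.Agent.Helper25.Nil.TORF.st_TORF) st_EXT (st_SCH st_GNS) st_POLA

theorem all_EE : ∀ c, EE.{u} c := by
  intro c
  have hEEC : ST_EEC.{u} := st_EEC st_GNS all_RAIN st_AVG all_POLB Pool.Agent.Helper5.Nil.st_KC
  induction c with
  | zero => exact hEEC 0 st_WN0
  | succ c ih => exact hEEC (c + 1) (st_WNS st_GNS all_FDL all_WNI c ih)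

theorem all_WFIN : ST_WFIN.{u} :=
  st_WFIN all_EE all_WNI (st_FDQ st_EXT st_G1 st_PER st_POLA st_POLA all_POLB st_CIRC) all_RAIN
    st_GNS Pool.Agent.Helper5.Nil.st_KC st_FGZ st_POLA all_POLB st_AVG

theorem all_APP : ST_APP.{u, v} := st_APP (st_LCS st_LEIB) st_POLA all_WFIN

theorem all_ENTQ : ST_ENTQ.{u, v, w} :=
  st_ENTQ (st_ENTLOW (st_NCK st_NCKM)) st_FOLN st_L1 (st_MODL st_RU)

theorem all_NILP : ST_NILP.{u} := Pool.Agent.Helper5.Nil.st_NILP st_HALL

end Pool.Agent.Helper40.Nil
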