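import Mathlib
import Pool.Agent.Helper40.MobDefs

/-!
Reduced group C*-algebras and automorphisms induced by conjugation: definitions used in the statement
on linear groups.
-/

namespace Pool.Agent.Helper40.Nil

universe u v w

open Filter

open Pool.Agent.Helper40.Mob

/-- `A` is the reduced C*-algebra of the group `G`, with canonical unitaries `U g`: it is the closed
linear span of the `U g`, and it has a state `τ` with faithful GNS representation such that
`τ (U g) = 0` for all `g ≠ 1` -/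
def IsReducedAlgebra {G : Type v} [Group G] {A : Type u} [CStarAlgebra A] (U : G →* unitary A) :
    Prop :=
  (∀ a : A, a ∈ closure ((Submodule.span ℂ (Set.range fun g => (U g : A)) : Submodule ℂ A) :
    Set A)) ∧
  ∃ τ : A →L[ℂ] ℂ, IsState τ ∧ (∀ g, g ≠ 1 → τ (U g : A) = 0) ∧
    ∀ a, (∀ x y, τ (x * a * y) = 0) → a = 0

/-- `h` normalizes the subgroup `G` of `Γ`, and `α` maps `U g` to `U (h g h⁻¹)` for all `g` in `G` -/
def IsConjugation {Γ : Type v} [Group Γ] (G : Subgroup Γ) (h : Γ) {A : Type u} [CStarAlgebra A]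
    (U : G →* unitary A) (α : A → A) : Prop :=
  (∀ g : Γ, g ∈ G ↔ h * g * h⁻¹ ∈ G) ∧
  ∀ g g' : G, (g' : Γ) = h * g * h⁻¹ → α (U g : A) = (U g' : A)

/-- the elements `a` of `S` are approximated up to `δ` in the representation `π` on `H` by
contractive linear maps `A → B(L) → B(H)` -/
def ApproxThrough {A : Type u} [CStarAlgebra A] {H : Type w} [NormedAddCommGroup H]
    [InnerProductSpace ℂ H] (π : A → H →L[ℂ] H) (S : Set A) (δ : ℝ) (L : Type)
    [NormedAddCommGroup L] [InnerProductSpace ℂ L] : Prop :=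
  ∃ (φ : A →ₗ[ℂ] L →L[ℂ] L) (ψ : (L →L[ℂ] L) →ₗ[ℂ] H →L[ℂ] H),
    (∀ a, ‖φ a‖ ≤ ‖a‖) ∧ (∀ x, ‖ψ x‖ ≤ ‖x‖) ∧ ∀ a ∈ S, ‖ψ (φ a) - π a‖ < δ

/-- zero (lower) contractive approximation entropy of `α` with respect to the representation `π`:
for all finite sets `Ω` in `A` and all `δ, ε > 0` there are infinitely many `n` such that
`Ω ∪ α Ω ∪ … ∪ α^(n-1) Ω` is approximated up to `δ` through the `k × k` matrices for some
`k ≤ exp (ε n)` -/
def ZeroLowerEntropy {A : Type u} [CStarAlgebra A] {H : Type w} [NormedAddCommGroup H]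
    [InnerProductSpace ℂ H] (π : A → H →L[ℂ] H) (α : A → A) : Prop :=
  ∀ (Ω : Finset A) (δ ε : ℝ), 0 < δ → 0 < ε → ∃ᶠ n : ℕ in atTop,
    ∃ k : ℕ, (k : ℝ) ≤ Real.exp (ε * n) ∧
      ApproxThrough π {x | ∃ a ∈ Ω, ∃ j < n, x = α^[j] a} δ (EuclideanSpace ℂ (Fin k))

end Pool.Agent.Helper40.Nil
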