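import Mathlib
import Pool.Agent.Helper40.Nil.EDefs
import Pool.Agent.Helper40.Nil.LDefs

/-! The two forms of the definition of zero entropy. -/

namespace Pool.Agent.Helper40.Nil

open Filter

universe u w

theorem zeroEntropy_of_lower {A : Type u} [CStarAlgebra A] {H : Type w} [NormedAddCommGroup H]
    [InnerProductSpace ℂ H] [CompleteSpace H] (π : A →⋆ₐ[ℂ] (H →L[ℂ] H)) (α : A → A)
    (h : ZeroLowerEntropy π α) : ZeroEntropy π α := by
  intro Ω δ ε hδ hε
  refine (h Ω δ ε hδ hε).mono fun n hn => ?_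
  obtain ⟨k, hk, φ, ψ, hφ, hψ, hap⟩ := hn
  refine ⟨k, hk, φ.mkContinuous 1 (fun a => ?_), ψ.mkContinuous 1 (fun x => ?_), ?_, ?_, ?_⟩
  · rw [one_mul]
    exact hφ a
  · rw [one_mul]
    exact hψ x
  · exact LinearMap.mkContinuous_norm_le _ zero_le_one _
  · exact LinearMap.mkContinuous_norm_le _ zero_le_one _
  · intro a ha j hj
    exact hap (α^[j] a) ⟨a, ha, j, hj, rfl⟩

end Pool.Agent.Helper40.Nil
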