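import Mathlib
import Pool.Agent.Helper40.Nil.LDefs
import Pool.Agent.Helper40.Free.FDefs
import Pool.Agent.Helper40.MR.CSTc

/-! Reduced group C*-algebras: the trace, and the closed subspace of disjoint elements. -/

open Filter Topology
open scoped InnerProductSpace ArithmeticFunction.Moebius

namespace Pool.Agent.Helper40.Nil

open Pool.Agent.Helper40.Mob

universe u v w

variable {A : Type u} [CStarAlgebra A]

/-- the state of a reduced group C*-algebra is a trace -/
theorem red_trace {G : Type v} [Group G] (U : G →* unitary A)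
    (hspan : ∀ a : A, a ∈ closure ((Submodule.span ℂ (Set.range fun g => (U g : A)) :
      Submodule ℂ A) : Set A)) (τ : A →L[ℂ] ℂ)
    (hτ : ∀ g, g ≠ 1 → τ (U g : A) = 0) (a b : A) : τ (a * b) = τ (b * a) := by
  have h0 : ∀ g h : G, τ ((U g : A) * (U h : A)) = τ ((U h : A) * (U g : A)) := by
    intro g h
    have e1 : (U g : A) * (U h : A) = (U (g * h) : A) := by rw [map_mul]; rfl
    have e2 : (U h : A) * (U g : A) = (U (h * g) : A) := by rw [map_mul]; rfl
    rw [e1, e2]
    by_cases hgh : g * h = 1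
    · have : h * g = 1 := by
        have h1 : h = g⁻¹ := by rw [← inv_eq_of_mul_eq_one_right hgh]
        rw [h1, inv_mul_cancel]
      rw [hgh, this]
    · have : h * g ≠ 1 := by
        intro h1
        apply hgh
        have h2 : g = h⁻¹ := by rw [← inv_eq_of_mul_eq_one_right h1]
        rw [h2, inv_mul_cancel]
      rw [hτ _ hgh, hτ _ this]
  have h1 : ∀ (h : G) (a : A), τ (a * (U h : A)) = τ ((U h : A) * a) := by
    intro h a
    have hcl : IsClosed {a : A | τ (a * (U h : A)) = τ ((U h : A) * a)} :=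
      isClosed_eq (by fun_prop) (by fun_prop)
    refine closure_minimal ?_ hcl (hspan a)
    intro x hx
    refine Submodule.span_induction (p := fun x _ => τ (x * (U h : A)) = τ ((U h : A) * x))
      ?_ ?_ ?_ ?_ hx
    · rintro _ ⟨g, rfl⟩
      exact h0 g h
    · simp
    · intro x y _ _ hx hy
      rw [add_mul, mul_add, map_add, map_add, hx, hy]
    · intro c x _ hx
      rw [smul_mul_assoc, mul_smul_comm, map_smul, map_smul, hx]
  have hcl : IsClosed {b : A | τ (a * b) = τ (b * a)} :=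
    isClosed_eq (by fun_prop) (by fun_prop)
  refine closure_minimal ?_ hcl (hspan b)
  intro x hx
  refine Submodule.span_induction (p := fun x _ => τ (a * x) = τ (x * a)) ?_ ?_ ?_ ?_ hx
  · rintro _ ⟨g, rfl⟩
    exact h1 g a
  · simp
  · intro x y _ _ hx hy
    rw [add_mul, mul_add, map_add, map_add, hx, hy]
  · intro c x _ hx
    rw [smul_mul_assoc, mul_smul_comm, map_smul, map_smul, hx]

/-- Cauchy-Schwarz in the degenerate case -/
theorem red_cs (τ : A →L[ℂ] ℂ) (hτ : IsState τ) (a : A) (ha : τ (star a * a) = 0) (c : A) :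
    τ (c * a) = 0 := by
  obtain ⟨H, _, _, _, π, ζ, hζ⟩ := Pool.Agent.Helper40.MR.cst_exists_gns τ hτ
  have hadj : ∀ (x : A) (v w : H), inner ℂ (π x v) w = inner ℂ v (π (star x) w) := by
    intro x v w
    rw [map_star, ContinuousLinearMap.star_eq_adjoint, ContinuousLinearMap.adjoint_inner_right]
  have h1 : inner ℂ (π a ζ) (π a ζ) = (0 : ℂ) := by
    rw [hadj]
    have : π (star a) (π a ζ) = π (star a * a) ζ := by rw [map_mul]; rfl
    rw [this, ← hζ, ha]
  have h2 : π a ζ = 0 := inner_self_eq_zero.1 h1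
  rw [hζ, map_mul]
  change inner ℂ ζ (π c (π a ζ)) = 0
  rw [h2, map_zero, inner_zero_right]

/-- faithfulness of the trace -/
theorem red_faithful {G : Type v} [Group G] (U : G →* unitary A)
    (hspan : ∀ a : A, a ∈ closure ((Submodule.span ℂ (Set.range fun g => (U g : A)) :
      Submodule ℂ A) : Set A)) (τ : A →L[ℂ] ℂ) (hτ : IsState τ)
    (hτU : ∀ g, g ≠ 1 → τ (U g : A) = 0) (hf : ∀ a, (∀ x y, τ (x * a * y) = 0) → a = 0)
    (a : A) (ha : τ (star a * a) = 0) : a = 0 := by
  apply hf
  intro x y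
  rw [red_trace U hspan τ hτU (x * a) y, ← mul_assoc]
  exact red_cs τ hτ a ha _

/-- the averages are small if the vector is small -/
theorem red_avg (α : A →⋆ₐ[ℂ] A) (ρ : A →L[ℂ] ℂ) (hρ : IsState ρ) (z : ℂ) (hz : ‖z‖ = 1) (a : A)
    (N : ℕ) : ‖(∑ n ∈ Finset.Icc 1 N, (μ n : ℂ) * z ^ n * ρ (α^[n] a)) / (N : ℂ)‖ ≤ ‖a‖ := by
  rcases Nat.eq_zero_or_pos N with h | h
  · subst h; simp
  have hN : (0 : ℝ) < N := by exact_mod_cast h
  have hit : ∀ n : ℕ, ‖α^[n] a‖ ≤ ‖a‖ := by
    intro n
    induction n with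
    | zero => simp
    | succ n ih =>
      rw [Function.iterate_succ', Function.comp_apply]
      exact (NonUnitalStarAlgHom.norm_apply_le α _).trans ih
  rw [norm_div, Complex.norm_natCast, div_le_iff₀ hN]
  refine (norm_sum_le _ _).trans ?_
  calc _ ≤ ∑ n ∈ Finset.Icc 1 N, ‖a‖ := by
        refine Finset.sum_le_sum fun n _ => ?_
        rw [norm_mul, norm_mul, norm_pow, hz, one_pow, mul_one]
        have h1 : ‖((μ n : ℤ) : ℂ)‖ ≤ 1 := by
          rw [Complex.norm_intCast]
          exact_mod_cast ArithmeticFunction.abs_moebius_le_one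
        have h2 : ‖ρ (α^[n] a)‖ ≤ ‖a‖ := by
          have := ρ.le_opNorm (α^[n] a)
          rw [hρ.2, one_mul] at this
          exact this.trans (hit n)
        calc _ ≤ 1 * ‖a‖ := mul_le_mul h1 h2 (norm_nonneg _) zero_le_one
          _ = ‖a‖ := one_mul _
    _ = ‖a‖ * N := by simp [mul_comm]

theorem red_itadd (α : A →⋆ₐ[ℂ] A) (n : ℕ) (x y : A) : α^[n] (x + y) = α^[n] x + α^[n] y := by
  induction n with
  | zero => rfl
  | succ n ih => rw [Function.iterate_succ', Function.comp_apply, ih, map_add]; rfl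

theorem red_itsmul (α : A →⋆ₐ[ℂ] A) (n : ℕ) (c : ℂ) (x : A) : α^[n] (c • x) = c • α^[n] x := by
  induction n with
  | zero => rfl
  | succ n ih => rw [Function.iterate_succ', Function.comp_apply, ih, map_smul]; rfl

/-- the disjoint elements form a closed subspace -/
theorem red_closed (α : A →⋆ₐ[ℂ] A) (S : Set A) (hS : ∀ v ∈ S, TwistedDisjoint α v) (a : A)
    (ha : a ∈ closure ((Submodule.span ℂ S : Submodule ℂ A) : Set A)) : TwistedDisjoint α a := by
  intro ρ hρ z hz
  have h1 : ∀ v ∈ Submodule.span ℂ S, Tendsto (fun N : ℕ =>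
      (∑ n ∈ Finset.Icc 1 N, (μ n : ℂ) * z ^ n * ρ (α^[n] v)) / (N : ℂ)) atTop (𝓝 0) := by
    intro v hv
    refine Submodule.span_induction (p := fun v _ => Tendsto (fun N : ℕ =>
      (∑ n ∈ Finset.Icc 1 N, (μ n : ℂ) * z ^ n * ρ (α^[n] v)) / (N : ℂ)) atTop (𝓝 0))
      ?_ ?_ ?_ ?_ hv
    · intro x hx
      exact hS x hx ρ hρ z hz
    · have : ∀ n : ℕ, α^[n] (0 : A) = 0 := fun n => Function.iterate_fixed (map_zero α) n
      simp [this]
    · intro x y _ _ hx hy
      have := hx.add hy
      rw [add_zero] at this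
      refine this.congr fun N => ?_
      rw [← add_div, ← Finset.sum_add_distrib]
      congr 1
      refine Finset.sum_congr rfl fun n _ => ?_
      rw [red_itadd, map_add]; ring
    · intro c x _ hx
      have := hx.const_mul c
      rw [mul_zero] at this
      refine this.congr fun N => ?_
      rw [← mul_div_assoc, Finset.mul_sum]
      congr 1
      refine Finset.sum_congr rfl fun n _ => ?_
      rw [red_itsmul, map_smul, smul_eq_mul]; ring
  rw [Metric.tendsto_nhds]
  intro ε hε
  obtain ⟨v, hv, hav⟩ := Metric.mem_closure_iff.1 ha (ε / 2) (by positivity)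
  have h2 := Metric.tendsto_nhds.1 (h1 v hv) (ε / 2) (by positivity)
  filter_upwards [h2] with N hN
  rw [dist_zero_right] at hN ⊢
  have h3 : (∑ n ∈ Finset.Icc 1 N, (μ n : ℂ) * z ^ n * ρ (α^[n] a)) / (N : ℂ) =
      (∑ n ∈ Finset.Icc 1 N, (μ n : ℂ) * z ^ n * ρ (α^[n] (a - v))) / (N : ℂ) +
      (∑ n ∈ Finset.Icc 1 N, (μ n : ℂ) * z ^ n * ρ (α^[n] v)) / (N : ℂ) := by
    rw [← add_div, ← Finset.sum_add_distrib]
    congr 1
    refine Finset.sum_congr rfl fun n _ => ?_
    rw [← mul_add, ← map_add, ← red_itadd, sub_add_cancel]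
  rw [h3]
  have h4 := red_avg α ρ hρ z hz (a - v) N
  rw [dist_eq_norm] at hav
  refine (norm_add_le _ _).trans_lt ?_
  linarith

end Pool.Agent.Helper40.Nil
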