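import Pool.Agent.Helper40.Nil.REDa

/-! The C*-subalgebra generated by a subgroup. -/

open Filter Topology
open scoped InnerProductSpace ArithmeticFunction.Moebius

namespace Pool.Agent.Helper40.Nil

open Pool.Agent.Helper40.Mob

universe u v w

variable {A : Type u} [CStarAlgebra A]

/-- the linear span of a group of unitaries -/
def redS {G : Type v} [Group G] (V : G →* unitary A) : StarSubalgebra ℂ A where
  carrier := (Submodule.span ℂ (Set.range fun g : G => (V g : A)) : Set A)
  mul_mem' := by
    intro a b ha hb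
    rw [SetLike.mem_coe] at ha hb ⊢
    refine Submodule.span_induction
      (p := fun a _ => a * b ∈ Submodule.span ℂ (Set.range fun g : G => (V g : A)))
      ?_ ?_ ?_ ?_ ha
    · rintro _ ⟨g, rfl⟩
      refine Submodule.span_induction
        (p := fun b _ => (V g : A) * b ∈ Submodule.span ℂ (Set.range fun g : G => (V g : A)))
        ?_ ?_ ?_ ?_ hb
      · rintro _ ⟨h, rfl⟩
        have : (V g : A) * (V h : A) = (V (g * h) : A) := by rw [map_mul]; rfl
        rw [this]
        exact Submodule.subset_span ⟨g * h, rfl⟩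
      · rw [mul_zero]; exact Submodule.zero_mem _
      · intro x y _ _ hx hy
        rw [mul_add]; exact Submodule.add_mem _ hx hy
      · intro c x _ hx
        rw [mul_smul_comm]; exact Submodule.smul_mem _ _ hx
    · rw [zero_mul]; exact Submodule.zero_mem _
    · intro x y _ _ hx hy
      rw [add_mul]; exact Submodule.add_mem _ hx hy
    · intro c x _ hx
      rw [smul_mul_assoc]; exact Submodule.smul_mem _ _ hx
  add_mem' := fun ha hb => Submodule.add_mem _ ha hb
  algebraMap_mem' := by
    intro c
    rw [SetLike.mem_coe, Algebra.algebraMap_eq_smul_one]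
    refine Submodule.smul_mem _ _ (Submodule.subset_span ⟨1, ?_⟩)
    simp
  star_mem' := by
    intro a ha
    have ha' : a ∈ Submodule.span ℂ (Set.range fun g : G => (V g : A)) := ha
    change star a ∈ Submodule.span ℂ (Set.range fun g : G => (V g : A))
    refine Submodule.span_induction
      (p := fun a _ => star a ∈ Submodule.span ℂ (Set.range fun g : G => (V g : A)))
      ?_ ?_ ?_ ?_ ha'
    · rintro _ ⟨g, rfl⟩
      have : star (V g : A) = (V g⁻¹ : A) := by
        rw [map_inv]
        rfl
      rw [this]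
      exact Submodule.subset_span ⟨g⁻¹, rfl⟩
    · rw [star_zero]; exact Submodule.zero_mem _
    · intro x y _ _ hx hy
      rw [star_add]; exact Submodule.add_mem _ hx hy
    · intro c x _ hx
      rw [star_smul]; exact Submodule.smul_mem _ _ hx

theorem mem_redS {G : Type v} [Group G] (V : G →* unitary A) (a : A) :
    a ∈ redS V ↔ a ∈ Submodule.span ℂ (Set.range fun g : G => (V g : A)) := Iff.rfl

/-- the C*-algebra generated by a group of unitaries -/
def redC {G : Type v} [Group G] (V : G →* unitary A) : StarSubalgebra ℂ A :=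
  (redS V).topologicalClosure

instance {G : Type v} [Group G] (V : G →* unitary A) : IsClosed ((redC V : StarSubalgebra ℂ A) : Set A) :=
  (redS V).isClosed_topologicalClosure

theorem redC_mem {G : Type v} [Group G] (V : G →* unitary A) (g : G) : (V g : A) ∈ redC V :=
  (redS V).le_topologicalClosure (Submodule.subset_span ⟨g, rfl⟩)

theorem redC_coe {G : Type v} [Group G] (V : G →* unitary A) (a : A) :
    a ∈ redC V ↔ a ∈ closure ((Submodule.span ℂ (Set.range fun g : G => (V g : A)) :
      Submodule ℂ A) : Set A) := Iff.rfl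

/-- the unitaries in the subalgebra -/
noncomputable def redU {G : Type v} [Group G] (V : G →* unitary A) :
    G →* unitary (redC V : StarSubalgebra ℂ A) where
  toFun g := ⟨⟨(V g : A), redC_mem V g⟩, by
    rw [Unitary.mem_iff]
    exact ⟨Subtype.ext (Unitary.mem_iff.1 (V g).2).1, Subtype.ext (Unitary.mem_iff.1 (V g).2).2⟩⟩
  map_one' := by
    apply Subtype.ext
    apply Subtype.ext
    change ((V 1 : unitary A) : A) = 1
    rw [map_one]; rfl
  map_mul' g h := by
    apply Subtype.ext
    apply Subtype.ext
    change ((V (g * h) : unitary A) : A) = (V g : A) * (V h : A)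
    rw [map_mul]; rfl

theorem redU_coe {G : Type v} [Group G] (V : G →* unitary A) (g : G) :
    (((redU V g : unitary (redC V : StarSubalgebra ℂ A)) : (redC V : StarSubalgebra ℂ A)) : A) =
      (V g : A) := rfl

theorem redU_span {G : Type v} [Group G] (V : G →* unitary A)
    (a : (redC V : StarSubalgebra ℂ A)) :
    a ∈ closure ((Submodule.span ℂ (Set.range fun g : G =>
      ((redU V g : unitary (redC V : StarSubalgebra ℂ A)) : (redC V : StarSubalgebra ℂ A))) :
      Submodule ℂ (redC V : StarSubalgebra ℂ A)) : Set (redC V : StarSubalgebra ℂ A)) := by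
  rw [Metric.mem_closure_iff]
  intro ε hε
  obtain ⟨b, hb, hab⟩ := Metric.mem_closure_iff.1 ((redC_coe V (a : A)).1 a.2) ε hε
  have key : ∀ b : A, b ∈ Submodule.span ℂ (Set.range fun g : G => (V g : A)) →
      ∃ b' ∈ Submodule.span ℂ (Set.range fun g : G =>
        ((redU V g : unitary (redC V : StarSubalgebra ℂ A)) : (redC V : StarSubalgebra ℂ A))),
        (b' : A) = b := by
    intro b hb
    refine Submodule.span_induction (p := fun b _ => ∃ b' ∈ Submodule.span ℂ
      (Set.range fun g : G => ((redU V g : unitary (redC V : StarSubalgebra ℂ A)) :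
        (redC V : StarSubalgebra ℂ A))), (b' : A) = b) ?_ ?_ ?_ ?_ hb
    · rintro _ ⟨g, rfl⟩
      exact ⟨_, Submodule.subset_span ⟨g, rfl⟩, rfl⟩
    · exact ⟨0, Submodule.zero_mem _, rfl⟩
    · rintro x y _ _ ⟨x', hx, rfl⟩ ⟨y', hy, rfl⟩
      exact ⟨x' + y', Submodule.add_mem _ hx hy, rfl⟩
    · rintro c x _ ⟨x', hx, rfl⟩
      exact ⟨c • x', Submodule.smul_mem _ _ hx, rfl⟩
  obtain ⟨b', hb', rfl⟩ := key b hb
  exact ⟨b', hb', hab⟩

/-- restriction of a functional, as a linear map -/
noncomputable def redρl {G : Type v} [Group G] (V : G →* unitary A) (ρ : A →L[ℂ] ℂ) :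
    (redC V : StarSubalgebra ℂ A) →ₗ[ℂ] ℂ where
  toFun a := ρ (a : A)
  map_add' a b := by
    change ρ ((a : A) + (b : A)) = _
    rw [map_add]
  map_smul' c a := by
    change ρ (c • (a : A)) = _
    rw [map_smul]; rfl

/-- restriction of a functional -/
noncomputable def redρ {G : Type v} [Group G] (V : G →* unitary A) (ρ : A →L[ℂ] ℂ) :
    (redC V : StarSubalgebra ℂ A) →L[ℂ] ℂ :=
  LinearMap.mkContinuous (redρl V ρ) ‖ρ‖ (fun a => ρ.le_opNorm (a : A))

theorem redρ_apply {G : Type v} [Group G] (V : G →* unitary A) (ρ : A →L[ℂ] ℂ)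
    (a : (redC V : StarSubalgebra ℂ A)) : redρ V ρ a = ρ (a : A) := rfl

theorem redρ_state {G : Type v} [Group G] (V : G →* unitary A) (ρ : A →L[ℂ] ℂ) (hρ : IsState ρ) :
    IsState (redρ V ρ) := by
  refine ⟨fun a => hρ.1 (a : A), le_antisymm ?_ ?_⟩
  · have := LinearMap.mkContinuous_norm_le (redρl V ρ) (norm_nonneg ρ)
      (fun a => ρ.le_opNorm (a : A))
    exact this.trans (le_of_eq hρ.2)
  · have h1 : ρ 1 = 1 := Pool.Agent.Helper40.MR.cst_state_one ρ hρ
    have hnt : Nontrivial A := by
      by_contra h
      rw [not_nontrivial_iff_subsingleton] at h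
      rw [Subsingleton.elim (1 : A) 0, map_zero] at h1
      exact zero_ne_one h1
    have h2 := (redρ V ρ).le_opNorm 1
    rw [redρ_apply] at h2
    have h3 : ‖(1 : (redC V : StarSubalgebra ℂ A))‖ = 1 := by
      change ‖((1 : (redC V : StarSubalgebra ℂ A)) : A)‖ = 1
      change ‖(1 : A)‖ = 1
      exact norm_one
    rw [h3, mul_one] at h2
    change ‖ρ 1‖ ≤ _ at h2
    rw [h1, norm_one] at h2
    exact h2

end Pool.Agent.Helper40.Nil
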