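import Pool.Agent.Helper40.Nil.REDb

/-! Reduction to the subgroups generated by `h` and one element. -/

open Filter Topology
open scoped InnerProductSpace ArithmeticFunction.Moebius

namespace Pool.Agent.Helper40.Nil

open Pool.Agent.Helper40.Mob

universe u v w

/-- Li's question has a positive answer for all systems over the group `Γ` -/
def GoodGroup (Γ : Type v) [Group Γ] : Prop :=
  ∀ (G : Subgroup Γ) (h : Γ) (A : Type u) [CStarAlgebra A] (U : G →* unitary A),
    IsReducedAlgebra U → ∀ α : A →⋆ₐ[ℂ] A, IsConjugation G h U α →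
    ∀ (H : Type w) [NormedAddCommGroup H] [InnerProductSpace ℂ H] [CompleteSpace H]
      (π : A →⋆ₐ[ℂ] (H →L[ℂ] H)), Function.Injective π → ZeroLowerEntropy π α →
    ∀ a : A, TwistedDisjoint α a

section

variable {Γ : Type v} [Group Γ] (G : Subgroup Γ) (Γ₀ : Subgroup Γ)

/-- the inclusion -/
def redι : G.subgroupOf Γ₀ →* G where
  toFun x := ⟨((x : Γ₀) : Γ), x.2⟩
  map_one' := rfl
  map_mul' _ _ := rfl

theorem redι_inj : Function.Injective (redι G Γ₀) := by
  intro x y hxy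
  apply Subtype.ext
  apply Subtype.ext
  exact congrArg (fun g : G => (g : Γ)) hxy

variable {A : Type u} [CStarAlgebra A] (U : G →* unitary A)

theorem red_isReduced (hU : IsReducedAlgebra U) :
    IsReducedAlgebra (redU (U.comp (redι G Γ₀))) := by
  obtain ⟨hspan, τ, hτ, hτU, hf⟩ := hU
  refine ⟨redU_span _, redρ _ τ, redρ_state _ τ hτ, fun g hg => ?_, fun a ha => ?_⟩
  · rw [redρ_apply]
    change τ (U (redι G Γ₀ g) : A) = 0
    apply hτU
    intro h
    apply hg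
    apply redι_inj G Γ₀
    rw [h, map_one]
  · have h1 := ha (star a) 1
    rw [redρ_apply] at h1
    have h2 : τ (star (a : A) * (a : A)) = 0 := by
      have h3 : (((star a * a * 1 : (redC (U.comp (redι G Γ₀)) : StarSubalgebra ℂ A)) : A)) =
          star (a : A) * (a : A) := by
        rw [mul_one]; rfl
      rw [h3] at h1
      exact h1
    have h4 := red_faithful U hspan τ hτ hτU hf (a : A) h2
    exact Subtype.ext h4

variable (h : Γ) (α : A →⋆ₐ[ℂ] A)

theorem red_maps (hh : h ∈ Γ₀) (hα : IsConjugation G h U α) (a : A)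
    (ha : a ∈ redC (U.comp (redι G Γ₀))) : α a ∈ redC (U.comp (redι G Γ₀)) := by
  rw [redC_coe] at ha ⊢
  have hcont : Continuous α := AddMonoidHomClass.continuous_of_bound α 1
    (fun x => by rw [one_mul]; exact NonUnitalStarAlgHom.norm_apply_le α x)
  refine map_mem_closure hcont ha ?_
  intro x hx
  refine Submodule.span_induction (p := fun x _ => α x ∈ ((Submodule.span ℂ
    (Set.range fun g : G.subgroupOf Γ₀ => ((U.comp (redι G Γ₀)) g : A)) : Submodule ℂ A) :
      Set A)) ?_ ?_ ?_ ?_ hx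
  · rintro _ ⟨g, rfl⟩
    have hg : h * ((g : Γ₀) : Γ) * h⁻¹ ∈ G := (hα.1 _).1 g.2
    let k : G.subgroupOf Γ₀ :=
      ⟨⟨h * ((g : Γ₀) : Γ) * h⁻¹, mul_mem (mul_mem hh (g : Γ₀).2) (inv_mem hh)⟩, hg⟩
    have h1 : α (U (redι G Γ₀ g) : A) = (U (redι G Γ₀ k) : A) := hα.2 _ _ rfl
    refine Submodule.subset_span ⟨k, ?_⟩
    exact h1.symm
  · rw [map_zero]; exact Submodule.zero_mem _
  · intro x y _ _ hx hy
    rw [map_add]; exact Submodule.add_mem _ hx hy
  · intro c x _ hx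
    rw [map_smul]; exact Submodule.smul_mem _ _ hx

/-- the restricted endomorphism -/
noncomputable def redα (hh : h ∈ Γ₀) (hα : IsConjugation G h U α) :
    (redC (U.comp (redι G Γ₀)) : StarSubalgebra ℂ A) →⋆ₐ[ℂ]
      (redC (U.comp (redι G Γ₀)) : StarSubalgebra ℂ A) :=
  StarAlgHom.codRestrict (α.comp (redC (U.comp (redι G Γ₀))).subtype) _
    (fun a => red_maps G Γ₀ U h α hh hα (a : A) a.2)

theorem redα_coe (hh : h ∈ Γ₀) (hα : IsConjugation G h U α)
    (a : (redC (U.comp (redι G Γ₀)) : StarSubalgebra ℂ A)) :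
    ((redα G Γ₀ U h α hh hα a : (redC (U.comp (redι G Γ₀)) : StarSubalgebra ℂ A)) : A) =
      α (a : A) := rfl

theorem redα_it (hh : h ∈ Γ₀) (hα : IsConjugation G h U α)
    (a : (redC (U.comp (redι G Γ₀)) : StarSubalgebra ℂ A)) (n : ℕ) :
    (((redα G Γ₀ U h α hh hα)^[n] a : (redC (U.comp (redι G Γ₀)) : StarSubalgebra ℂ A)) : A) =
      α^[n] (a : A) := by
  induction n with
  | zero => rfl
  | succ n ih =>
    rw [Function.iterate_succ', Function.comp_apply, redα_coe, ih, Function.iterate_succ',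
      Function.comp_apply]

theorem red_conj (hh : h ∈ Γ₀) (hα : IsConjugation G h U α) :
    IsConjugation (G.subgroupOf Γ₀) (⟨h, hh⟩ : Γ₀) (redU (U.comp (redι G Γ₀)))
      (redα G Γ₀ U h α hh hα) := by
  refine ⟨fun g => ?_, fun g g' hgg => ?_⟩
  · rw [Subgroup.mem_subgroupOf, Subgroup.mem_subgroupOf]
    exact hα.1 (g : Γ)
  · apply Subtype.ext
    rw [redα_coe, redU_coe, redU_coe]
    exact hα.2 (redι G Γ₀ g) (redι G Γ₀ g') (congrArg (fun x : Γ₀ => (x : Γ)) hgg)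

variable {H : Type w} [NormedAddCommGroup H] [InnerProductSpace ℂ H] [CompleteSpace H]
  (π : A →⋆ₐ[ℂ] (H →L[ℂ] H))

theorem red_entropy (hh : h ∈ Γ₀) (hα : IsConjugation G h U α) (hent : ZeroLowerEntropy π α) :
    ZeroLowerEntropy (π.comp (redC (U.comp (redι G Γ₀))).subtype)
      (redα G Γ₀ U h α hh hα) := by
  classical
  intro Ω δ ε hδ hε
  let Ω' : Finset A :=
    Finset.image (fun a : (redC (U.comp (redι G Γ₀)) : StarSubalgebra ℂ A) => (a : A)) Ω
  refine (hent Ω' δ ε hδ hε).mono fun n hn => ?_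
  obtain ⟨k, hk, φ, ψ, hφ, hψ, hap⟩ := hn
  let j : (redC (U.comp (redι G Γ₀)) : StarSubalgebra ℂ A) →ₗ[ℂ] A :=
    { toFun := fun a => (a : A)
      map_add' := fun _ _ => rfl
      map_smul' := fun _ _ => rfl }
  refine ⟨k, hk, φ ∘ₗ j, ψ, fun a => hφ (a : A), hψ, ?_⟩
  rintro x ⟨a, ha, i, hi, rfl⟩
  have h1 := hap (α^[i] (a : A)) ⟨(a : A), Finset.mem_image_of_mem _ ha, i, hi, rfl⟩
  have h2 : j ((redα G Γ₀ U h α hh hα)^[i] a) = α^[i] (a : A) := redα_it G Γ₀ U h α hh hα a i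
  change ‖ψ (φ (j ((redα G Γ₀ U h α hh hα)^[i] a))) -
    π (j ((redα G Γ₀ U h α hh hα)^[i] a))‖ < δ
  rw [h2]
  exact h1

theorem red_one (hU : IsReducedAlgebra U) (hα : IsConjugation G h U α)
    (hπ : Function.Injective π) (hent : ZeroLowerEntropy π α) (hh : h ∈ Γ₀) (g : G)
    (hg : (g : Γ) ∈ Γ₀) (hgood : GoodGroup.{u, v, w} Γ₀) : TwistedDisjoint α (U g : A) := by
  intro ρ hρ z hz
  have hπ0 : Function.Injective (π.comp (redC (U.comp (redι G Γ₀))).subtype) := by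
    intro a b hab
    exact Subtype.ext (hπ hab)
  have key := hgood (G.subgroupOf Γ₀) ⟨h, hh⟩ _ (redU (U.comp (redι G Γ₀)))
    (red_isReduced G Γ₀ U hU) (redα G Γ₀ U h α hh hα) (red_conj G Γ₀ U h α hh hα) H
    (π.comp (redC (U.comp (redι G Γ₀))).subtype) hπ0 (red_entropy G Γ₀ U h α π hh hα hent)
    ((redU (U.comp (redι G Γ₀)) ⟨⟨(g : Γ), hg⟩, g.2⟩ :
      unitary (redC (U.comp (redι G Γ₀)) : StarSubalgebra ℂ A)) :
      (redC (U.comp (redι G Γ₀)) : StarSubalgebra ℂ A))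
    (redρ _ ρ) (redρ_state _ ρ hρ) z hz
  refine key.congr fun N => ?_
  congr 1
  refine Finset.sum_congr rfl fun n _ => ?_
  rw [redρ_apply, redα_it, redU_coe]
  rfl

/-- reduction to local subgroups -/
theorem red_main (hU : IsReducedAlgebra U) (hα : IsConjugation G h U α)
    (hπ : Function.Injective π) (hent : ZeroLowerEntropy π α)
    (hloc : ∀ g : G, ∃ Γ₀ : Subgroup Γ, h ∈ Γ₀ ∧ (g : Γ) ∈ Γ₀ ∧ GoodGroup.{u, v, w} Γ₀)
    (a : A) : TwistedDisjoint α a := by
  refine red_closed α (Set.range fun g : G => (U g : A)) ?_ a (hU.1 a)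
  rintro _ ⟨g, rfl⟩
  obtain ⟨Γ₀, hh, hg, hgood⟩ := hloc g
  exact red_one G Γ₀ U h α π hU hα hπ hent hh g hg hgood

end

end Pool.Agent.Helper40.Nil
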