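import Pool.Agent.Helper40.Nil.REDc
import Pool.Agent.Helper40.Nil.All
import Pool.Agent.Helper40.Nil.EConv

/-! Linear groups are good. -/

open Filter Topology
open scoped InnerProductSpace ArithmeticFunction.Moebius

namespace Pool.Agent.Helper40.Nil

open Pool.Agent.Helper40.Mob

universe u v w

theorem red_linear {Γ : Type v} [Group Γ] {K : Type v} [Field K] (n : ℕ)
    (f : Γ →* Matrix.GeneralLinearGroup (Fin n) K) (hf : Function.Injective f) :
    GoodGroup.{u, v, w} Γ := by
  intro G h A _ U hU α hα H _ _ _ π hπ hent a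
  let e : G ≃* G.map f := G.equivMapOfInjective f hf
  have he : ∀ x : G.map f, f ((e.symm x : G) : Γ) = (x : Matrix.GeneralLinearGroup (Fin n) K) := by
    intro x
    have h1 : e (e.symm x) = x := e.apply_symm_apply x
    have h2 : ((e (e.symm x) : G.map f) : Matrix.GeneralLinearGroup (Fin n) K) =
        f ((e.symm x : G) : Γ) := Subgroup.coe_equivMapOfInjective_apply G f hf _
    rw [← h2, h1]
  let V : G.map f →* unitary A := U.comp (e.symm : G.map f →* G)
  have hV : ∀ x, V x = U (e.symm x) := fun _ => rfl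
  obtain ⟨hspan, τ, hτ, hτU, hfaith⟩ := hU
  have hrange : (Set.range fun x : G.map f => (V x : A)) = Set.range fun g : G => (U g : A) := by
    ext y
    constructor
    · rintro ⟨x, rfl⟩
      exact ⟨e.symm x, rfl⟩
    · rintro ⟨g, rfl⟩
      refine ⟨e g, ?_⟩
      change (V (e g) : A) = _
      rw [hV, e.symm_apply_apply]
  have hG : ∀ x, x ∈ G.map f ↔ f h * x * (f h)⁻¹ ∈ G.map f := by
    intro x
    constructor
    · rintro ⟨g, hg, rfl⟩
      exact ⟨h * g * h⁻¹, (hα.1 g).1 hg, by rw [map_mul, map_mul, map_inv]⟩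
    · rintro ⟨g, hg, hgx⟩
      refine ⟨h⁻¹ * g * h, (hα.1 _).2 ?_, ?_⟩
      · have : h * (h⁻¹ * g * h) * h⁻¹ = g := by group
        rw [this]; exact hg
      · rw [map_mul, map_mul, map_inv, hgx]
        group
  refine ASM all_APP all_ENTQ all_NILP st_TRIN st_COMG n (G.map f) (f h) hG V
    (by rw [hrange]; exact hspan) τ hτ (fun x hx => ?_) hfaith α (fun x => ?_) π hπ
    (zeroEntropy_of_lower π α hent) a
  · rw [hV]
    apply hτU
    intro h1
    apply hx
    rw [← e.apply_symm_apply x, h1, map_one]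
  · rw [hV, hV]
    apply hα.2
    apply hf
    rw [map_mul, map_mul, map_inv, he, he]

end Pool.Agent.Helper40.Nil
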