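import Mathlib

/-!
Groups with a homomorphism to a matrix group over a commutative ring with solvable kernel.
-/

namespace Pool.Agent.Helper40.Nil

universe v

/-- the group `Γ` is solvable-by-linear: there are a commutative ring `R` and a homomorphism from
`Γ` to `GL_n(R)` with solvable kernel -/
def SolvableByLinear (Γ : Type v) [Group Γ] : Prop :=
  ∃ (R : Type v) (_ : CommRing R) (n : ℕ) (f : Γ →* Matrix.GeneralLinearGroup (Fin n) R),
    Group.IsSolvable f.ker

end Pool.Agent.Helper40.Nil
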